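import Pool.Graph.R_pool_sql_team_seeded_620a6dc7.H775.KE.J2
import Pool.Graph.R_seed8.W594.SYZ.Defs2

/-!
# Bieberbach's theorem for groups of holomorphic isometries of `ℂ^n`
-/

set_option autoImplicit false

namespace Pool.Agent.H896.IQ

open Pool.Agent.W594.SYZ2 Module

variable {n : ℕ}

/-- real orthonormal coordinates -/
theorem exists_real_coordinates (n : ℕ) : ∃ (k : ℕ)
    (φ : (Fin n → ℂ) ≃ₗ[ℝ] EuclideanSpace ℝ (Fin k)), ∀ v, ‖φ v‖ ^ 2 = ∑ i, ‖v i‖ ^ 2 := by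
  let E := EuclideanSpace ℂ (Fin n)
  let w : (Fin n → ℂ) ≃ₗ[ℂ] E := (WithLp.linearEquiv 2 ℂ (Fin n → ℂ)).symm
  let _ : InnerProductSpace ℝ E := InnerProductSpace.complexToReal
  have : FiniteDimensional ℝ E := FiniteDimensional.complexToReal E
  refine ⟨finrank ℝ E, (w.restrictScalars ℝ).trans (stdOrthonormalBasis ℝ E).repr.toLinearEquiv,
    fun v => ?_⟩
  change ‖(stdOrthonormalBasis ℝ E).repr (w v)‖ ^ 2 = _
  rw [LinearIsometryEquiv.norm_map]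
  exact EuclideanSpace.norm_sq_eq (w v)

/-- **Bieberbach's theorem**, for groups of holomorphic isometries. -/
theorem torus_of_isometric {G : Subgroup ((Fin n → ℂ) ≃ᵃ[ℂ] (Fin n → ℂ))}
    (hiso : ∀ γ ∈ G, ∀ v w, ∑ i, ‖γ v i - γ w i‖ ^ 2 = ∑ i, ‖v i - w i‖ ^ 2)
    (hfin : ∀ R : ℝ, {γ : (Fin n → ℂ) ≃ᵃ[ℂ] (Fin n → ℂ) | γ ∈ G ∧
      ∑ i, ‖γ 0 i‖ ^ 2 ≤ R}.Finite) {r : ℝ}
    (hco : ∀ v : Fin n → ℂ, ∃ γ ∈ G, ∑ i, ‖γ 0 i - v i‖ ^ 2 ≤ r) : IsTorusQuotient G := by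
  classical
  obtain ⟨k, φ, hφ⟩ := exists_real_coordinates n
  have hnorm : ∀ v : Fin n → ℂ, ‖φ v‖ = Real.sqrt (∑ i, ‖v i‖ ^ 2) := by
    intro v
    rw [← hφ v, Real.sqrt_sq (norm_nonneg _)]
  have hdist : ∀ γ ∈ G, ∀ v w, ‖φ (γ v) - φ (γ w)‖ = ‖φ v - φ w‖ := by
    intro γ hγ v w
    rw [← map_sub φ (γ v), ← map_sub φ v, hnorm, hnorm]
    congr 1
    exact hiso γ hγ v w
  let f : G → (EuclideanSpace ℝ (Fin k) ≃ᵢ EuclideanSpace ℝ (Fin k)) := fun γ =>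
    IsometryEquiv.mk' (fun x => φ ((γ : (Fin n → ℂ) ≃ᵃ[ℂ] (Fin n → ℂ)) (φ.symm x)))
      (fun x => φ (((γ⁻¹ : G) : (Fin n → ℂ) ≃ᵃ[ℂ] (Fin n → ℂ)) (φ.symm x)))
      (fun x => by
        rw [LinearEquiv.symm_apply_apply]
        have h1 : (γ : (Fin n → ℂ) ≃ᵃ[ℂ] (Fin n → ℂ))
            (((γ⁻¹ : G) : (Fin n → ℂ) ≃ᵃ[ℂ] (Fin n → ℂ)) (φ.symm x)) = φ.symm x := by
          change ((γ : (Fin n → ℂ) ≃ᵃ[ℂ] (Fin n → ℂ)) *
            ((γ⁻¹ : G) : (Fin n → ℂ) ≃ᵃ[ℂ] (Fin n → ℂ))) (φ.symm x) = φ.symm x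
          rw [← Subgroup.coe_mul, mul_inv_cancel]
          rfl
        rw [h1, LinearEquiv.apply_symm_apply])
      (Isometry.of_dist_eq fun x y => by
        rw [dist_eq_norm, dist_eq_norm, hdist _ γ.2, LinearEquiv.apply_symm_apply,
          LinearEquiv.apply_symm_apply])
  have hf : ∀ γ x, f γ x = φ ((γ : (Fin n → ℂ) ≃ᵃ[ℂ] (Fin n → ℂ)) (φ.symm x)) := fun _ _ => rfl
  let e : G →* (EuclideanSpace ℝ (Fin k) ≃ᵃⁱ[ℝ] EuclideanSpace ℝ (Fin k)) :=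
    { toFun := fun γ => (f γ).toRealAffineIsometryEquiv
      map_one' := by
        ext x : 1
        rw [IsometryEquiv.coeFn_toRealAffineIsometryEquiv, hf]
        change φ (φ.symm x) = x
        exact φ.apply_symm_apply x
      map_mul' := fun γ δ => by
        ext x : 1
        change (f (γ * δ)).toRealAffineIsometryEquiv x = (f γ).toRealAffineIsometryEquiv
          ((f δ).toRealAffineIsometryEquiv x)
        rw [IsometryEquiv.coeFn_toRealAffineIsometryEquiv,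
          IsometryEquiv.coeFn_toRealAffineIsometryEquiv,
          IsometryEquiv.coeFn_toRealAffineIsometryEquiv, hf, hf, hf, LinearEquiv.symm_apply_apply]
        rfl }
  have he : ∀ γ x, e γ x = φ ((γ : (Fin n → ℂ) ≃ᵃ[ℂ] (Fin n → ℂ)) (φ.symm x)) := by
    intro γ x
    change (f γ).toRealAffineIsometryEquiv x = _
    rw [IsometryEquiv.coeFn_toRealAffineIsometryEquiv, hf]
  have hfin' : ∀ R : ℝ, {g : G | ‖e g 0‖ ≤ R}.Finite := by
    intro R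
    have h1 := (hfin (R ^ 2)).preimage (f := fun g : G =>
      (g : (Fin n → ℂ) ≃ᵃ[ℂ] (Fin n → ℂ))) Subtype.val_injective.injOn
    refine h1.subset fun g hg => ⟨g.2, ?_⟩
    have h2 : ‖e g 0‖ ≤ R := hg
    rw [he, map_zero] at h2
    rw [← hφ]
    exact pow_le_pow_left₀ (norm_nonneg _) h2 2
  have hco' : ∀ z : EuclideanSpace ℝ (Fin k), ∃ g : G, ‖e g 0 - z‖ ≤ Real.sqrt r := by
    intro z
    obtain ⟨γ, hγ, h⟩ := hco (φ.symm z)
    refine ⟨⟨γ, hγ⟩, ?_⟩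
    rw [he, map_zero]
    have h1 : φ (γ 0) - z = φ (γ 0 - φ.symm z) := by
      rw [map_sub, LinearEquiv.apply_symm_apply]
    change ‖φ (γ 0) - z‖ ≤ _
    rw [h1, hnorm]
    exact Real.sqrt_le_sqrt h
  obtain ⟨Λ, T, h1, h2, h3, h4, -⟩ := Pool.Agent.H775.KE.bieberbach k G e hfin' _ hco'
  have hmem : ∀ b : Fin n → ℂ, b ∈ latt G ↔ φ b ∈ Λ := by
    intro b
    rw [h3]
    constructor
    · intro hb
      refine ⟨⟨_, mem_latt.1 hb⟩, fun z => ?_⟩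
      rw [he]
      change φ (b + φ.symm z) = _
      rw [map_add, LinearEquiv.apply_symm_apply]
    · rintro ⟨g, hg⟩
      have h5 : AffineEquiv.constVAdd ℂ (Fin n → ℂ) b = (g : (Fin n → ℂ) ≃ᵃ[ℂ] (Fin n → ℂ)) := by
        refine AffineEquiv.ext fun v => ?_
        have h6 := hg (φ v)
        rw [he, LinearEquiv.symm_apply_apply, ← map_add] at h6
        exact (φ.injective h6).symm
      rw [mem_latt, h5]
      exact g.2
  refine ⟨?_, ?_, ?_⟩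
  · have h5 : (latt G : Set (Fin n → ℂ)) = φ ⁻¹' (Λ : Set _) := Set.ext fun b => hmem b
    have h6 : DiscreteTopology (Λ : Set (EuclideanSpace ℝ (Fin k))) := h1
    have h7 : DiscreteTopology (φ ⁻¹' (Λ : Set (EuclideanSpace ℝ (Fin k)))) :=
      DiscreteTopology.preimage_of_continuous_injective _
        (LinearMap.continuous_of_finiteDimensional
          (φ : (Fin n → ℂ) →ₗ[ℝ] EuclideanSpace ℝ (Fin k))) φ.injective
    change DiscreteTopology (latt G : Set (Fin n → ℂ))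
    rw [h5]
    exact h7
  · have h5 : (latt G : Set (Fin n → ℂ)) = φ.symm '' (Λ : Set _) := by
      ext b
      constructor
      · intro hb
        exact ⟨φ b, (hmem b).1 hb, φ.symm_apply_apply b⟩
      · rintro ⟨x, hx, rfl⟩
        refine (hmem _).2 ?_
        rw [LinearEquiv.apply_symm_apply]
        exact hx
    rw [h5]
    have h6 := congrArg (Submodule.map (φ.symm : EuclideanSpace ℝ (Fin k) →ₗ[ℝ] (Fin n → ℂ))) h2
    rw [Submodule.map_span, Submodule.map_top, LinearMap.range_eq_top.2 φ.symm.surjective] at h6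
    exact h6
  · refine ((T.finite_toSet).image fun t : G =>
      ((t : (Fin n → ℂ) ≃ᵃ[ℂ] (Fin n → ℂ))).linear).subset ?_
    rintro A ⟨γ, hγ, rfl⟩
    obtain ⟨t, ht, v, hv, h⟩ := h4 ⟨γ, hγ⟩
    refine ⟨t, ht, ?_⟩
    have h5 : ∀ x, γ x = φ.symm v + (t : (Fin n → ℂ) ≃ᵃ[ℂ] (Fin n → ℂ)) x := by
      intro x
      apply φ.injective
      have h6 := h (φ x)
      rw [he, he, LinearEquiv.symm_apply_apply] at h6
      rw [map_add, LinearEquiv.apply_symm_apply]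
      exact h6
    refine LinearEquiv.ext fun x => ?_
    have h6 := γ.map_vadd 0 x
    have h7 := (t : (Fin n → ℂ) ≃ᵃ[ℂ] (Fin n → ℂ)).map_vadd 0 x
    rw [vadd_eq_add, vadd_eq_add, add_zero] at h6 h7
    rw [h5, h5 0, h7] at h6
    have h8 : φ.symm v + ((t : (Fin n → ℂ) ≃ᵃ[ℂ] (Fin n → ℂ)).linear x +
        (t : (Fin n → ℂ) ≃ᵃ[ℂ] (Fin n → ℂ)) 0) =
        (t : (Fin n → ℂ) ≃ᵃ[ℂ] (Fin n → ℂ)).linear x + (φ.symm v +
        (t : (Fin n → ℂ) ≃ᵃ[ℂ] (Fin n → ℂ)) 0) := by abel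
    rw [h8] at h6
    exact add_right_cancel h6

end Pool.Agent.H896.IQ
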