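import Mathlib

/-!
# Commuting unitary maps have a common orthonormal basis of eigenvectors
-/

set_option autoImplicit false

namespace Pool.Agent.H896.IQ

open Module InnerProductSpace

section inner

variable {E : Type*} [NormedAddCommGroup E] [InnerProductSpace ℂ E]

theorem inner_iso {T : E →ₗ[ℂ] E} (hT : ∀ x, ‖T x‖ = ‖x‖) (x y : E) :
    inner ℂ (T x) (T y) = inner ℂ x y := by
  let U : E →ₗᵢ[ℂ] E := ⟨T, hT⟩
  exact U.inner_map_map x y

theorem norm_eig {T : E →ₗ[ℂ] E} (hT : ∀ x, ‖T x‖ = ‖x‖) {x : E} (hx : x ≠ 0) {c : ℂ}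
    (h : T x = c • x) : ‖c‖ = 1 := by
  have h1 := hT x
  rw [h, norm_smul] at h1
  exact (mul_eq_right₀ (norm_ne_zero_iff.2 hx)).1 h1

theorem eig_of_sq {T : E →ₗ[ℂ] E} (hT : ∀ x, ‖T x‖ = ‖x‖) {x : E} {c : ℂ}
    (h : T (T x - c • x) = c • (T x - c • x)) : T x = c • x := by
  obtain ⟨y, hy⟩ : ∃ y, y = T x - c • x := ⟨_, rfl⟩
  rw [← hy] at h
  by_contra hcon
  have hy0 : y ≠ 0 := by
    rw [hy]
    exact sub_ne_zero.2 hcon
  have hc := norm_eig hT hy0 h
  have h1 : inner ℂ y y = inner ℂ y (T x) - c * inner ℂ y x := by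
    have h0 : inner ℂ y y = inner ℂ y (T x - c • x) := by rw [← hy]
    rw [h0, inner_sub_right, inner_smul_right]
  have h2 : inner ℂ (T y) (T x) = (starRingEnd ℂ) c * inner ℂ y (T x) := by
    rw [h, inner_smul_left]
  rw [inner_iso hT] at h2
  have h3 : c * (starRingEnd ℂ) c = 1 := by
    rw [Complex.mul_conj, Complex.normSq_eq_norm_sq, hc]
    norm_num
  have h4 : inner ℂ y (T x) = c * inner ℂ y x := by
    rw [h2, ← mul_assoc, h3, one_mul]
  rw [h4, sub_self] at h1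
  exact hy0 (inner_self_eq_zero.1 h1)

theorem eig_of_maxGen {T : E →ₗ[ℂ] E} (hT : ∀ x, ‖T x‖ = ‖x‖) (c : ℂ) {x : E}
    (hx : x ∈ Module.End.maxGenEigenspace T c) : T x = c • x := by
  rw [Module.End.mem_maxGenEigenspace] at hx
  obtain ⟨k, hk⟩ := hx
  have h1 : ∀ y : E, (T - c • 1) y = T y - c • y := fun y => by
    rw [LinearMap.sub_apply, LinearMap.smul_apply, Module.End.one_apply]
  have h2 : ∀ (k : ℕ) (y : E), ((T - c • 1) ^ k) y = 0 → T y = c • y := by
    intro k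
    induction k with
    | zero =>
      intro y hy
      have h3 : y = 0 := by simpa using hy
      rw [h3, map_zero, smul_zero]
    | succ k ih =>
      intro y hy
      rw [pow_succ, Module.End.mul_apply] at hy
      have h3 := ih _ hy
      rw [h1] at h3
      exact eig_of_sq hT h3
  exact h2 k x hk

theorem gs_eig {ι : Type*} [LinearOrder ι] [LocallyFiniteOrderBot ι] [WellFoundedLT ι]
    {T : E →ₗ[ℂ] E} (hT : ∀ x, ‖T x‖ = ‖x‖) {f : ι → E} (hf : ∀ i, f i ≠ 0) {χ : ι → ℂ}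
    (h : ∀ i, T (f i) = χ i • f i) (i : ι) :
    T (gramSchmidt ℂ f i) = χ i • gramSchmidt ℂ f i := by
  induction i using WellFoundedLT.induction with
  | ind n ih =>
    have h1 := gramSchmidt_def'' ℂ f n
    have h2 : gramSchmidt ℂ f n = f n - ∑ i ∈ Finset.Iio n,
        (inner ℂ (gramSchmidt ℂ f i) (f n) / (‖gramSchmidt ℂ f i‖ : ℂ) ^ 2) •
          gramSchmidt ℂ f i := by
      rw [eq_sub_iff_add_eq]
      exact h1.symm
    rw [h2, map_sub, map_sum, h n, smul_sub, Finset.smul_sum]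
    congr 1
    refine Finset.sum_congr rfl fun i hi => ?_
    rw [map_smul, ih i (Finset.mem_Iio.1 hi), smul_smul, smul_smul]
    congr 1
    have h3 : inner ℂ (gramSchmidt ℂ f i) (f n) =
        (starRingEnd ℂ) (χ i) * (χ n * inner ℂ (gramSchmidt ℂ f i) (f n)) := by
      conv_lhs => rw [← inner_iso hT, ih i (Finset.mem_Iio.1 hi), h n, inner_smul_left,
        inner_smul_right]
    have h4 : χ i * (starRingEnd ℂ) (χ i) = 1 := by
      rw [Complex.mul_conj, Complex.normSq_eq_norm_sq, norm_eig hT (hf i) (h i)]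
      norm_num
    have h5 : inner ℂ (gramSchmidt ℂ f i) (f n) * χ i =
        χ n * inner ℂ (gramSchmidt ℂ f i) (f n) := by
      linear_combination (χ n * inner ℂ (gramSchmidt ℂ f i) (f n)) * h4 + χ i * h3
    rw [div_mul_eq_mul_div, h5]
    ring

end inner

/-- **Commuting unitary maps are simultaneously diagonalisable by a unitary map.** -/
theorem exists_unitary_diag {Y : Type*} {k : ℕ} (U : Y → (Fin k → ℂ) →ₗ[ℂ] (Fin k → ℂ))
    (hU : ∀ y x, ∑ i, ‖U y x i‖ ^ 2 = ∑ i, ‖x i‖ ^ 2)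
    (hc : ∀ y y' x, U y (U y' x) = U y' (U y x)) :
    ∃ P : (Fin k → ℂ) ≃ₗ[ℂ] (Fin k → ℂ), (∀ x, ∑ i, ‖P x i‖ ^ 2 = ∑ i, ‖x i‖ ^ 2) ∧
      ∀ y, ∃ χ : Fin k → ℂ, ∀ x, U y (P x) = P fun i => χ i * x i := by
  classical
  let E := EuclideanSpace ℂ (Fin k)
  let w : E ≃ₗ[ℂ] (Fin k → ℂ) := WithLp.linearEquiv 2 ℂ (Fin k → ℂ)
  let T : Y → End ℂ E := fun y => (w.symm : (Fin k → ℂ) →ₗ[ℂ] E) ∘ₗ U y ∘ₗ (w : E →ₗ[ℂ] _)
  have hTw : ∀ y x, w (T y x) = U y (w x) := fun y x => rfl
  have hnorm : ∀ x : E, ‖x‖ ^ 2 = ∑ i, ‖w x i‖ ^ 2 := fun x => EuclideanSpace.norm_sq_eq x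
  have hT : ∀ y x, ‖T y x‖ = ‖x‖ := by
    intro y x
    have h1 : ‖T y x‖ ^ 2 = ‖x‖ ^ 2 := by
      rw [hnorm, hnorm, hTw, hU]
    exact (sq_eq_sq₀ (norm_nonneg _) (norm_nonneg _)).1 h1
  have hcomm : Pairwise fun i j => Commute (T i) (T j) := by
    intro y y' _
    refine LinearMap.ext fun x => ?_
    apply w.injective
    change U y (U y' (w x)) = U y' (U y (w x))
    exact hc y y' _
  have htop := Module.End.iSup_iInf_maxGenEigenspace_eq_top_of_iSup_maxGenEigenspace_eq_top_of_commute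
    T hcomm (fun t => Module.End.iSup_maxGenEigenspace_eq_top (T t))
  let S : Set E := {v | ∀ t, ∃ c : ℂ, T t v = c • v}
  have hS : ⊤ ≤ Submodule.span ℂ S := by
    rw [← htop]
    refine iSup_le fun χ v hv => Submodule.subset_span ?_
    intro t
    exact ⟨χ t, eig_of_maxGen (hT t) _ ((Submodule.mem_iInf _).mp hv t)⟩
  let b₀ := Basis.ofSpan hS
  have hb₀ : ∀ i, b₀ i ∈ S := fun i => Basis.ofSpan_subset hS ⟨i, rfl⟩
  have hfin : Finite ((linearIndepOn_empty ℂ id).extend (Set.empty_subset S)) :=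
    Module.Finite.finite_basis b₀
  have hcard : Nat.card ((linearIndepOn_empty ℂ id).extend (Set.empty_subset S)) =
      Nat.card (Fin k) := by
    rw [← Module.finrank_eq_nat_card_basis b₀, finrank_euclideanSpace, Nat.card_eq_fintype_card]
  obtain ⟨e⟩ : Nonempty (((linearIndepOn_empty ℂ id).extend (Set.empty_subset S)) ≃ Fin k) :=
    Finite.card_eq.mp hcard
  let b := b₀.reindex e
  have hb : ∀ j, b j ∈ S := fun j => by
    rw [Basis.reindex_apply]; exact hb₀ _
  choose lam hlam using hb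
  have hdim : finrank ℂ E = Fintype.card (Fin k) := finrank_euclideanSpace
  let o : OrthonormalBasis (Fin k) ℂ E := gramSchmidtOrthonormalBasis hdim b
  have ho : ∀ t i, T t (o i) = lam i t • o i := by
    intro t i
    have h1 := gs_eig (hT t) (f := b) (fun i => b.ne_zero i) (χ := fun i => lam i t)
      (fun i => hlam i t) i
    have h2 : gramSchmidt ℂ b i ≠ 0 := gramSchmidt_ne_zero i b.linearIndependent
    have h3 : gramSchmidtNormed ℂ b i ≠ 0 := by
      unfold gramSchmidtNormed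
      exact smul_ne_zero (inv_ne_zero (Complex.ofReal_ne_zero.2 (norm_ne_zero_iff.2 h2))) h2
    have h4 : o i = gramSchmidtNormed ℂ b i := gramSchmidtOrthonormalBasis_apply hdim h3
    rw [h4]
    unfold gramSchmidtNormed
    rw [map_smul, h1, smul_comm]
  let P : (Fin k → ℂ) ≃ₗ[ℂ] (Fin k → ℂ) :=
    w.symm.trans (o.repr.symm.toLinearEquiv.trans w)
  have hP : ∀ x : Fin k → ℂ, w.symm (P x) = ∑ i, x i • o i := by
    intro x
    change w.symm (w (o.repr.symm (w.symm x))) = _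
    rw [LinearEquiv.symm_apply_apply, ← o.sum_repr_symm (w.symm x)]
    rfl
  refine ⟨P, fun x => ?_, fun t => ⟨fun i => lam i t, fun x => ?_⟩⟩
  · have h1 := hnorm (o.repr.symm (w.symm x))
    have h2 := hnorm (w.symm x)
    rw [LinearIsometryEquiv.norm_map, h2, LinearEquiv.apply_symm_apply] at h1
    exact h1.symm
  · apply w.symm.injective
    have h1 : w.symm (U t (P x)) = T t (w.symm (P x)) := rfl
    rw [h1, hP, hP, map_sum]
    refine Finset.sum_congr rfl fun i _ => ?_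
    rw [map_smul, ho, smul_smul, mul_comm]

end Pool.Agent.H896.IQ
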