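import Pool.Agent.H896.IQ.Grp
import Pool.Agent.H896.IQ.Dia
import Pool.Graph.R_pool_sql_team_seeded_707910d6.T2H08.FQ.Norm

/-!
# Unitary transformations of the blocks
-/

set_option autoImplicit false

namespace Pool.Agent.H896.IQ

open Pool.Agent.T2H08.FQ

variable {n c : ℕ} {r : Fin c → ℕ}

/-- the `j`-th block of coordinates -/
def blkOf (z : Co r → ℂ) (j : Fin c) : Fin (r j + 1) → ℂ := fun i => z ⟨j, i⟩

/-- the vector with the given `j`-th block, zero elsewhere -/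
def inc (j : Fin c) : (Fin (r j + 1) → ℂ) →ₗ[ℂ] (Co r → ℂ) where
  toFun x := fun s => (Pi.single j x : ∀ j, Fin (r j + 1) → ℂ) s.1 s.2
  map_add' x y := by
    funext s
    change (Pi.single j (x + y) : ∀ j, Fin (r j + 1) → ℂ) s.1 s.2 = _
    rw [Pi.single_add]
    rfl
  map_smul' a x := by
    funext s
    change (Pi.single j (a • x) : ∀ j, Fin (r j + 1) → ℂ) s.1 s.2 = _
    rw [Pi.single_smul]
    rfl

theorem inc_same (j : Fin c) (x : Fin (r j + 1) → ℂ) (i : Fin (r j + 1)) :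
    inc j x ⟨j, i⟩ = x i := by
  change (Pi.single j x : ∀ j, Fin (r j + 1) → ℂ) j i = x i
  rw [Pi.single_eq_same]

theorem inc_ne {j j' : Fin c} (h : j' ≠ j) (x : Fin (r j + 1) → ℂ) (i : Fin (r j' + 1)) :
    inc j x ⟨j', i⟩ = 0 := by
  change (Pi.single j x : ∀ j, Fin (r j + 1) → ℂ) j' i = 0
  rw [Pi.single_eq_of_ne h]
  rfl

/-- unitary on each block -/
def BU (A : (Co r → ℂ) →ₗ[ℂ] (Co r → ℂ)) : Prop :=
  ∀ (z : Co r → ℂ) (j : Fin c), ∑ i, ‖A z ⟨j, i⟩‖ ^ 2 = ∑ i, ‖z ⟨j, i⟩‖ ^ 2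

theorem BU.zero {A : (Co r → ℂ) →ₗ[ℂ] (Co r → ℂ)} (hA : BU A) {z : Co r → ℂ} {j : Fin c}
    (hz : ∀ i, z ⟨j, i⟩ = 0) (i : Fin (r j + 1)) : A z ⟨j, i⟩ = 0 := by
  have h1 := hA z j
  have h2 : ∑ i, ‖z ⟨j, i⟩‖ ^ 2 = 0 := Finset.sum_eq_zero fun i _ => by rw [hz]; simp
  rw [h2] at h1
  have h3 := (Finset.sum_eq_zero_iff_of_nonneg (fun i _ => by positivity)).1 h1 i
    (Finset.mem_univ _)
  simpa using h3

/-- the `j`-th diagonal block -/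
def blk (j : Fin c) (A : (Co r → ℂ) →ₗ[ℂ] (Co r → ℂ)) :
    (Fin (r j + 1) → ℂ) →ₗ[ℂ] (Fin (r j + 1) → ℂ) where
  toFun x := fun i => A (inc j x) ⟨j, i⟩
  map_add' x y := by
    funext i
    rw [map_add, map_add]
    rfl
  map_smul' a x := by
    funext i
    rw [map_smul, map_smul]
    rfl

theorem blk_apply (j : Fin c) (A : (Co r → ℂ) →ₗ[ℂ] (Co r → ℂ)) (x : Fin (r j + 1) → ℂ)
    (i : Fin (r j + 1)) : blk j A x i = A (inc j x) ⟨j, i⟩ := rfl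

theorem BU.apply {A : (Co r → ℂ) →ₗ[ℂ] (Co r → ℂ)} (hA : BU A) (z : Co r → ℂ) (j : Fin c)
    (i : Fin (r j + 1)) : A z ⟨j, i⟩ = blk j A (blkOf z j) i := by
  have h1 : A (z - inc j (blkOf z j)) ⟨j, i⟩ = 0 := by
    refine hA.zero (fun i => ?_) i
    rw [Pi.sub_apply, inc_same]
    exact sub_self _
  rw [map_sub, Pi.sub_apply, sub_eq_zero] at h1
  exact h1

theorem blkOf_apply {A : (Co r → ℂ) →ₗ[ℂ] (Co r → ℂ)} (hA : BU A) (z : Co r → ℂ) (j : Fin c) :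
    blkOf (A z) j = blk j A (blkOf z j) := funext fun i => hA.apply z j i

theorem blkOf_inc (j : Fin c) (x : Fin (r j + 1) → ℂ) : blkOf (inc j x) j = x :=
  funext fun i => inc_same j x i

theorem blk_comp {A B : (Co r → ℂ) →ₗ[ℂ] (Co r → ℂ)} (hA : BU A) (j : Fin c)
    (x : Fin (r j + 1) → ℂ) : blk j (A ∘ₗ B) x = blk j A (blk j B x) := by
  funext i
  rw [blk_apply, LinearMap.comp_apply, hA.apply]
  rfl

theorem blk_comp' {A B : (Co r → ℂ) →ₗ[ℂ] (Co r → ℂ)} (hA : BU A) (j : Fin c) :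
    blk j (A ∘ₗ B) = blk j A ∘ₗ blk j B := LinearMap.ext fun x => blk_comp hA j x

theorem blk_unitary {A : (Co r → ℂ) →ₗ[ℂ] (Co r → ℂ)} (hA : BU A) (j : Fin c)
    (x : Fin (r j + 1) → ℂ) : ∑ i, ‖blk j A x i‖ ^ 2 = ∑ i, ‖x i‖ ^ 2 := by
  have h1 := hA (inc j x) j
  simp only [inc_same] at h1
  exact h1

theorem BU.comp {A B : (Co r → ℂ) →ₗ[ℂ] (Co r → ℂ)} (hA : BU A) (hB : BU B) : BU (A ∘ₗ B) :=
  fun z j => (hA (B z) j).trans (hB z j)

theorem BU.symm {A : (Co r → ℂ) ≃ₗ[ℂ] (Co r → ℂ)} (hA : BU (A : (Co r → ℂ) →ₗ[ℂ] (Co r → ℂ))) :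
    BU (A.symm : (Co r → ℂ) →ₗ[ℂ] (Co r → ℂ)) := fun z j => by
  have h1 := hA (A.symm z) j
  have h2 : (A : (Co r → ℂ) →ₗ[ℂ] (Co r → ℂ)) (A.symm z) = z := A.apply_symm_apply z
  rw [h2] at h1
  exact h1.symm

theorem BU.scal {A : (Co r → ℂ) →ₗ[ℂ] (Co r → ℂ)} (hA : BU A) (μ : Fin c → ℂˣ)
    (z : Co r → ℂ) : A (scal μ z) = scal μ (A z) := by
  funext ⟨j, i⟩
  rw [scal_apply]
  have h1 : A (Pool.Agent.T2H08.FQ.scal μ z - (μ j : ℂ) • z) ⟨j, i⟩ = 0 := by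
    refine hA.zero (fun i => ?_) i
    rw [Pi.sub_apply, scal_apply, Pi.smul_apply, smul_eq_mul, sub_self]
  rw [map_sub, map_smul, Pi.sub_apply, Pi.smul_apply, smul_eq_mul, sub_eq_zero] at h1
  exact h1

theorem BU.isPt {A : (Co r → ℂ) →ₗ[ℂ] (Co r → ℂ)} (hA : BU A) {z : Co r → ℂ} (hz : IsPt z) :
    IsPt (A z) := by
  intro j
  by_contra hcon
  push Not at hcon
  have h1 := hA z j
  have h2 : ∑ i, ‖A z ⟨j, i⟩‖ ^ 2 = 0 := Finset.sum_eq_zero fun i _ => by rw [hcon]; simp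
  rw [h2] at h1
  obtain ⟨i, hi⟩ := hz j
  have h3 := (Finset.sum_eq_zero_iff_of_nonneg (fun i _ => by positivity)).1 h1.symm i
    (Finset.mem_univ _)
  exact hi (by simpa using h3)

theorem blk_scal (μ : Fin c → ℂˣ) (j : Fin c) :
    blk j ((scal μ : (Co r → ℂ) ≃ₗ[ℂ] (Co r → ℂ)) : (Co r → ℂ) →ₗ[ℂ] (Co r → ℂ)) =
      (μ j : ℂ) • LinearMap.id := by
  refine LinearMap.ext fun x => funext fun i => ?_
  change scal μ (inc j x) ⟨j, i⟩ = (μ j : ℂ) * x i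
  rw [scal_apply, inc_same]

/-- block transformations from transformations of the blocks -/
def glue (P : ∀ j : Fin c, (Fin (r j + 1) → ℂ) ≃ₗ[ℂ] (Fin (r j + 1) → ℂ)) :
    (Co r → ℂ) ≃ₗ[ℂ] (Co r → ℂ) where
  toFun z := fun s => P s.1 (blkOf z s.1) s.2
  invFun z := fun s => (P s.1).symm (blkOf z s.1) s.2
  left_inv z := by
    funext s
    change (P s.1).symm (P s.1 (blkOf z s.1)) s.2 = _
    rw [LinearEquiv.symm_apply_apply]
    rfl
  right_inv z := by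
    funext s
    change P s.1 ((P s.1).symm (blkOf z s.1)) s.2 = _
    rw [LinearEquiv.apply_symm_apply]
    rfl
  map_add' z w := by
    funext s
    have h1 : blkOf (z + w) s.1 = blkOf z s.1 + blkOf w s.1 := rfl
    change P s.1 (blkOf (z + w) s.1) s.2 = _
    rw [h1, map_add]
    rfl
  map_smul' a z := by
    funext s
    have h1 : blkOf (a • z) s.1 = a • blkOf z s.1 := rfl
    change P s.1 (blkOf (a • z) s.1) s.2 = _
    rw [h1, map_smul]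
    rfl

theorem glue_apply (P : ∀ j : Fin c, (Fin (r j + 1) → ℂ) ≃ₗ[ℂ] (Fin (r j + 1) → ℂ))
    (z : Co r → ℂ) (j : Fin c) (i : Fin (r j + 1)) :
    glue P z ⟨j, i⟩ = P j (blkOf z j) i := rfl

/-- **A commuting set of block unitary maps is diagonal in unitary coordinates.** -/
theorem exists_coordinates {Y : Type*} (U : Y → (Co r → ℂ) →ₗ[ℂ] (Co r → ℂ)) (hU : ∀ y, BU (U y))
    (hc : ∀ y y' x, U y (U y' x) = U y' (U y x)) :
    ∃ P : (Co r → ℂ) ≃ₗ[ℂ] (Co r → ℂ), BU (P : (Co r → ℂ) →ₗ[ℂ] (Co r → ℂ)) ∧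
      ∀ y, ∃ χ : Co r → ℂ, ∀ x, U y (P x) = P fun s => χ s * x s := by
  have h1 : ∀ j : Fin c, ∃ P : (Fin (r j + 1) → ℂ) ≃ₗ[ℂ] (Fin (r j + 1) → ℂ),
      (∀ x, ∑ i, ‖P x i‖ ^ 2 = ∑ i, ‖x i‖ ^ 2) ∧
      ∀ y, ∃ χ : Fin (r j + 1) → ℂ, ∀ x, blk j (U y) (P x) = P fun i => χ i * x i := by
    intro j
    refine exists_unitary_diag (fun y => blk j (U y)) (fun y x => blk_unitary (hU y) j x) ?_
    intro y y' x
    have h2 := hc y y' (inc j x)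
    have h3 : blkOf (U y (U y' (inc j x))) j = blkOf (U y' (U y (inc j x))) j := by rw [h2]
    rw [blkOf_apply (hU y), blkOf_apply (hU y'), blkOf_apply (hU y'), blkOf_apply (hU y),
      blkOf_inc] at h3
    exact h3
  choose P hP1 hP2 using h1
  refine ⟨glue P, fun z j => hP1 j (blkOf z j), fun y => ?_⟩
  choose χ hχ using fun j => hP2 j y
  refine ⟨fun s => χ s.1 s.2, fun x => ?_⟩
  funext ⟨j, i⟩
  rw [(hU y).apply]
  have h3 : blkOf (glue P x) j = P j (blkOf x j) := rfl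
  rw [h3, hχ j]
  rfl

end Pool.Agent.H896.IQ
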