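import Pool.Agent.H896.IQ.Blk
import Pool.Graph.R_pool_sql_team_seeded_707910d6.T2H08.FQ.Coef

/-!
# Linear substitutions in polynomials
-/

set_option autoImplicit false

namespace Pool.Agent.H896.IQ

open Pool.Agent.T2H08.FQ MvPolynomial

variable {n c : ℕ} {r : Fin c → ℕ}

/-- the polynomial `p (P z)` -/
noncomputable def sub (P : (Co r → ℂ) ≃ₗ[ℂ] (Co r → ℂ)) :
    MvPolynomial (Co r) ℂ →ₐ[ℂ] MvPolynomial (Co r) ℂ :=
  aeval fun s => ∑ t, C (P (Pi.single t 1) s) * X t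

theorem eval_sub (P : (Co r → ℂ) ≃ₗ[ℂ] (Co r → ℂ)) (p : MvPolynomial (Co r) ℂ) (z : Co r → ℂ) :
    eval z (sub P p) = eval (P z) p := by
  classical
  have h1 : ∀ s, eval z (∑ t, C (P (Pi.single t 1) s) * X t) = P z s := by
    intro s
    rw [map_sum]
    have h2 : z = ∑ t, z t • (Pi.single t 1 : Co r → ℂ) := by
      rw [← pi_eq_sum_univ' z]
    conv_rhs => rw [h2, map_sum]
    rw [Finset.sum_apply]
    refine Finset.sum_congr rfl fun t _ => ?_
    rw [map_mul, eval_C, eval_X, map_smul, Pi.smul_apply, smul_eq_mul, mul_comm]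
  unfold sub
  induction p using MvPolynomial.induction_on with
  | C a => simp
  | add p q hp hq => rw [map_add, map_add, hp, hq, map_add]
  | mul_X p s hp => rw [map_mul, map_mul, hp, aeval_X, h1, map_mul, eval_X]

theorem sub_ne_zero {P : (Co r → ℂ) ≃ₗ[ℂ] (Co r → ℂ)} {p : MvPolynomial (Co r) ℂ} (hp : p ≠ 0) :
    sub P p ≠ 0 := by
  intro h
  apply hp
  refine MvPolynomial.funext fun z => ?_
  have h1 := eval_sub P p (P.symm z)
  rw [h, LinearEquiv.apply_symm_apply, map_zero] at h1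
  rw [← h1, map_zero]

/-- homogeneity by values -/
theorem isHomog_of_eval {k : Fin c → ℕ} {p : MvPolynomial (Co r) ℂ}
    (h : ∀ (μ : Fin c → ℂˣ) z, eval (scal μ z) p = (∏ j, (μ j : ℂ) ^ k j) * eval z p) :
    IsHomog k p := by
  classical
  intro I hI j
  obtain ⟨μ, hμ⟩ : ∃ μ : Fin c → ℂˣ, μ = Pi.mulSingle j (Units.mk0 2 two_ne_zero) := ⟨_, rfl⟩
  have h1 : scl (fun s => (μ s.1 : ℂ)) p = C (∏ j, (μ j : ℂ) ^ k j) * p := by
    refine MvPolynomial.funext fun z => ?_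
    rw [eval_scl, map_mul, eval_C]
    exact h μ z
  have h2 : coeff I p * ∏ s : Co r, (μ s.1 : ℂ) ^ I s = (∏ j, (μ j : ℂ) ^ k j) * coeff I p := by
    rw [← coeff_scl (fun s => (μ s.1 : ℂ)), h1, coeff_C_mul]
  have h3 : ∏ s : Co r, (μ s.1 : ℂ) ^ I s = ∏ j, (μ j : ℂ) ^ k j := by
    have h4 : coeff I p ≠ 0 := mem_support_iff.1 hI
    rw [mul_comm] at h2
    exact mul_right_cancel₀ h4 h2
  have h4 : ∏ s : Co r, (μ s.1 : ℂ) ^ I s = (2 : ℂ) ^ ∑ i, I ⟨j, i⟩ := by
    rw [Fintype.prod_sigma, Finset.prod_eq_single j]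
    · change ∏ i : Fin (r j + 1), (μ j : ℂ) ^ I ⟨j, i⟩ = _
      rw [Finset.prod_pow_eq_pow_sum, hμ, Pi.mulSingle_eq_same, Units.val_mk0]
    · intro j' _ hj'
      refine Finset.prod_eq_one fun i _ => ?_
      rw [hμ, Pi.mulSingle_eq_of_ne hj', Units.val_one, one_pow]
    · intro h
      exact absurd (Finset.mem_univ _) h
  have h5 : ∏ j, (μ j : ℂ) ^ k j = (2 : ℂ) ^ k j := by
    rw [Finset.prod_eq_single j]
    · rw [hμ, Pi.mulSingle_eq_same, Units.val_mk0]
    · intro j' _ hj'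
      rw [hμ, Pi.mulSingle_eq_of_ne hj', Units.val_one, one_pow]
    · intro h
      exact absurd (Finset.mem_univ _) h
  rw [h4, h5] at h3
  have h6 : ((2 ^ ∑ i, I ⟨j, i⟩ : ℕ) : ℂ) = ((2 ^ k j : ℕ) : ℂ) := by
    push_cast
    exact h3
  exact Nat.pow_right_injective (le_refl 2) (Nat.cast_injective h6)

/-- values of homogeneous polynomials -/
theorem eval_scal {k : Fin c → ℕ} {p : MvPolynomial (Co r) ℂ} (h : IsHomog k p)
    (μ : Fin c → ℂˣ) (z : Co r → ℂ) :
    eval (scal μ z) p = (∏ j, (μ j : ℂ) ^ k j) * eval z p := by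
  rw [eval_eq', eval_eq', Finset.mul_sum]
  refine Finset.sum_congr rfl fun I hI => ?_
  have h1 : ∏ s : Co r, scal μ z s ^ I s = (∏ j, (μ j : ℂ) ^ k j) * ∏ s, z s ^ I s := by
    have h2 : ∏ s : Co r, scal μ z s ^ I s = (∏ s : Co r, (μ s.1 : ℂ) ^ I s) * ∏ s, z s ^ I s := by
      rw [← Finset.prod_mul_distrib]
      refine Finset.prod_congr rfl fun s _ => ?_
      rw [scal_apply, mul_pow]
    rw [h2, Fintype.prod_sigma]
    congr 1
    refine Finset.prod_congr rfl fun j _ => ?_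
    change ∏ i : Fin (r j + 1), (μ j : ℂ) ^ I ⟨j, i⟩ = _
    rw [Finset.prod_pow_eq_pow_sum, h I hI j]
  rw [h1]
  ring

theorem isHomog_sub {P : (Co r → ℂ) ≃ₗ[ℂ] (Co r → ℂ)}
    (hP : BU (P : (Co r → ℂ) →ₗ[ℂ] (Co r → ℂ))) {k : Fin c → ℕ} {p : MvPolynomial (Co r) ℂ}
    (h : IsHomog k p) : IsHomog k (sub P p) := by
  refine isHomog_of_eval fun μ z => ?_
  rw [eval_sub, eval_sub]
  have h1 : P (scal μ z) = scal μ (P z) := hP.scal μ z
  rw [h1, eval_scal h]

theorem holo_sub {P : (Co r → ℂ) ≃ₗ[ℂ] (Co r → ℂ)} {k : Fin c → ℕ}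
    {β : (Fin n → ℂ) → MvPolynomial (Co r) ℂ} (hβ : ∀ I, Differentiable ℂ fun v => coeff I (β v))
    (hk : ∀ v, IsHomog k (β v)) (I : Co r →₀ ℕ) :
    Differentiable ℂ fun v => coeff I (sub P (β v)) := by
  classical
  have h1 : ∀ v, β v = ∑ J ∈ box r (∑ j, k j), C (coeff J (β v)) * monomial J 1 := by
    intro v
    conv_lhs => rw [(β v).as_sum]
    have h2 : ∀ J, (monomial J) (coeff J (β v)) = C (coeff J (β v)) * monomial J 1 := by
      intro J
      rw [C_mul_monomial, mul_one]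
    simp only [h2]
    refine Finset.sum_subset (fun J hJ => (hk v).in_box hJ) fun J _ hJ => ?_
    rw [notMem_support_iff.1 hJ, map_zero, zero_mul]
  have h2 : (fun v => coeff I (sub P (β v))) = fun v => ∑ J ∈ box r (∑ j, k j),
      coeff J (β v) * coeff I (sub P (monomial J 1)) := by
    funext v
    conv_lhs => rw [h1 v, map_sum, coeff_sum]
    refine Finset.sum_congr rfl fun J _ => ?_
    rw [map_mul]
    have h3 : sub P (C (coeff J (β v))) = C (coeff J (β v)) := by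
      unfold sub
      rw [aeval_C]
      rfl
    rw [h3, coeff_C_mul]
  rw [h2]
  exact Differentiable.fun_sum fun J _ => (hβ J).mul_const _

end Pool.Agent.H896.IQ
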