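import Pool.Agent.H896.IQ.Vir
import Pool.Agent.H896.IQ.Sub
import Pool.Graph.R_pool_sql_team_seeded_707910d6.T2H08.FQ.Free

/-!
# Base point freeness without distinguished coordinates
-/

set_option autoImplicit false

namespace Pool.Agent.H896.IQ

open Pool.Agent.T2H08.FQ Pool.Agent.W594.SYZ2 MvPolynomial MeasureTheory

variable {n c : ℕ} {r : Fin c → ℕ}

/-- the transformation in the old coordinates -/
def cj (P : (Co r → ℂ) ≃ₗ[ℂ] (Co r → ℂ)) : Grp n r →* Grp n r where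
  toFun g := (g.1, P * g.2 * P⁻¹)
  map_one' := Prod.ext rfl (by
    change P * 1 * P⁻¹ = 1
    rw [mul_one, mul_inv_cancel])
  map_mul' g h := Prod.ext rfl (by
    change P * (g.2 * h.2) * P⁻¹ = P * g.2 * P⁻¹ * (P * h.2 * P⁻¹)
    group)

theorem cj_apply (P : (Co r → ℂ) ≃ₗ[ℂ] (Co r → ℂ)) (g : Grp n r) (z : Co r → ℂ) :
    (cj P g).2 (P z) = P (g.2 z) := by
  change P (g.2 (P.symm (P z))) = P (g.2 z)
  rw [LinearEquiv.symm_apply_apply]

theorem cj_scal {P : (Co r → ℂ) ≃ₗ[ℂ] (Co r → ℂ)} (hP : BU (lm P)) (μ : Fin c → ℂˣ)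
    (γ : (Fin n → ℂ) ≃ᵃ[ℂ] (Fin n → ℂ)) : cj P ((γ, scal μ) : Grp n r) = (γ, scal μ) := by
  refine Prod.ext rfl ?_
  change P * scal μ * P⁻¹ = scal μ
  have h1 : P * scal μ = scal μ * P := LinearEquiv.ext fun z => hP.scal μ z
  rw [h1, mul_inv_cancel_right]

/-- the group in the new coordinates -/
def chg (P : (Co r → ℂ) ≃ₗ[ℂ] (Co r → ℂ)) (Γ : Subgroup (Grp n r)) : Subgroup (Grp n r) :=
  Γ.comap (cj P)

theorem mem_chg {P : (Co r → ℂ) ≃ₗ[ℂ] (Co r → ℂ)} {Γ : Subgroup (Grp n r)} {g : Grp n r} :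
    g ∈ chg P Γ ↔ cj P g ∈ Γ := Iff.rfl

theorem GA_chg (P : (Co r → ℂ) ≃ₗ[ℂ] (Co r → ℂ)) (Γ : Subgroup (Grp n r)) :
    GA (chg P Γ) = GA Γ := by
  ext γ
  rw [mem_GA, mem_GA]
  constructor
  · rintro ⟨A, hA⟩
    exact ⟨_, hA⟩
  · rintro ⟨A, hA⟩
    refine ⟨P⁻¹ * A * P, ?_⟩
    rw [mem_chg]
    have h1 : cj P ((γ, P⁻¹ * A * P) : Grp n r) = (γ, A) := Prod.ext rfl (by
      change P * (P⁻¹ * A * P) * P⁻¹ = A
      group)
    rw [h1]
    exact hA

theorem GV_chg {P : (Co r → ℂ) ≃ₗ[ℂ] (Co r → ℂ)} (hP : BU (lm P)) (Γ : Subgroup (Grp n r)) :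
    GV (chg P Γ) = GV Γ := by
  ext γ
  rw [mem_GV, mem_GV]
  constructor
  · rintro ⟨μ, hμ⟩
    rw [mem_chg, cj_scal hP] at hμ
    exact ⟨μ, hμ⟩
  · rintro ⟨μ, hμ⟩
    refine ⟨μ, ?_⟩
    rw [mem_chg, cj_scal hP]
    exact hμ

theorem det_cj (P : (Co r → ℂ) ≃ₗ[ℂ] (Co r → ℂ)) (g : Grp n r) :
    LinearMap.det (lm (cj P g).2) = LinearMap.det (lm g.2) := by
  have h1 : lm (cj P g).2 = (P : (Co r → ℂ) →ₗ[ℂ] (Co r → ℂ)) ∘ₗ lm g.2 ∘ₗ
      (P.symm : (Co r → ℂ) →ₗ[ℂ] (Co r → ℂ)) := rfl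
  rw [h1, LinearMap.det_conj]

/-- the line bundle in the new coordinates -/
def lbc {P : (Co r → ℂ) ≃ₗ[ℂ] (Co r → ℂ)} (hP : BU (lm P)) {Γ : Subgroup (Grp n r)}
    (L : LineBundle Γ) : LineBundle (chg P Γ) where
  deg := L.deg
  e := fun g => L.e ⟨cj P g, g.2⟩
  holo := fun g => L.holo _
  ne_zero := fun g => L.ne_zero _
  mul := fun g h v => by
    have h1 : (⟨cj P ((g * h : chg P Γ) : Grp n r), (g * h).2⟩ : Γ) =
        ⟨cj P g, g.2⟩ * ⟨cj P h, h.2⟩ := Subtype.ext (map_mul (cj P) (g : Grp n r) (h : Grp n r))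
    rw [h1]
    exact L.mul _ _ v
  stab := fun g v z μ hz h1 h2 => by
    refine L.stab ⟨cj P g, g.2⟩ v (P z) μ (hP.isPt hz) h1 ?_
    change (cj P (g : Grp n r)).2 (P z) = scal μ (P z)
    rw [cj_apply, h2]
    exact hP.scal μ z

theorem klt_chg {P : (Co r → ℂ) ≃ₗ[ℂ] (Co r → ℂ)} (hP : BU (lm P)) {m : ℕ}
    {ρ : (Fin n → ℂ) → ℂ} {σ : MvPolynomial (Co r) ℂ}
    {β : (Fin n → ℂ) → MvPolynomial (Co r) ℂ} (h : IsKlt m ρ σ β) :
    IsKlt m ρ (sub P σ) (fun v => sub P (β v)) := by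
  intro x hx
  let Φ : ((Fin n → ℂ) × (Co r → ℂ)) ≃ₗ[ℝ] ((Fin n → ℂ) × (Co r → ℂ)) :=
    ((LinearEquiv.refl ℂ (Fin n → ℂ)).prodCongr P).restrictScalars ℝ
  have hΦ : ∀ p, Φ p = (p.1, P p.2) := fun p => rfl
  have hcont : Continuous Φ := LinearMap.continuous_of_finiteDimensional
    (Φ : ((Fin n → ℂ) × (Co r → ℂ)) →ₗ[ℝ] ((Fin n → ℂ) × (Co r → ℂ)))
  have hx' : IsPt (P x.2) := hP.isPt hx
  obtain ⟨U, hU, hint⟩ := h (Φ x) hx'
  refine ⟨Φ ⁻¹' U, ?_, ?_⟩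
  · have h1 : Filter.Tendsto Φ (nhdsWithin x {p | IsPt p.2})
        (nhdsWithin (Φ x) {p | IsPt p.2}) := by
      refine hcont.continuousAt.continuousWithinAt.tendsto_nhdsWithin ?_
      intro p hp
      exact hP.isPt hp
    exact h1 hU
  · have hemb : MeasurableEmbedding Φ :=
      (Φ.toContinuousLinearEquiv.toHomeomorph.measurableEmbedding)
    have hmap : Measure.map Φ (volume : Measure ((Fin n → ℂ) × (Co r → ℂ))) =
        ENNReal.ofReal |(LinearMap.det (Φ : ((Fin n → ℂ) × (Co r → ℂ)) →ₗ[ℝ]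
          ((Fin n → ℂ) × (Co r → ℂ))))⁻¹| •
          (volume : Measure ((Fin n → ℂ) × (Co r → ℂ))) := by
      have : (volume : Measure ((Fin n → ℂ) × (Co r → ℂ))).IsAddHaarMeasure :=
        Measure.prod.instIsAddHaarMeasure _ _
      exact Measure.map_linearMap_addHaar_eq_smul_addHaar _ (LinearEquiv.isUnit_det' Φ).ne_zero
    have h2 : IntegrableOn (fun p : (Fin n → ℂ) × (Co r → ℂ) =>
        ‖ρ p.1 * eval p.2 σ‖ ^ 2 * ‖eval p.2 (β p.1)‖ ^ (-(2 / (m : ℝ)))) U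
        (Measure.map Φ volume) := by
      rw [hmap]
      unfold IntegrableOn
      rw [Measure.restrict_smul]
      exact hint.smul_measure ENNReal.ofReal_ne_top
    rw [hemb.integrableOn_map_iff] at h2
    refine h2.congr_fun_ae ?_
    refine Filter.Eventually.of_forall fun p => ?_
    change ‖ρ p.1 * eval (P p.2) σ‖ ^ 2 * ‖eval (P p.2) (β p.1)‖ ^ (-(2 / (m : ℝ))) =
      ‖ρ p.1 * eval p.2 (sub P σ)‖ ^ 2 * ‖eval p.2 (sub P (β p.1))‖ ^ (-(2 / (m : ℝ)))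
    rw [eval_sub, eval_sub]

/-- **Base point freeness without distinguished coordinates.** -/
theorem semiample_uq {Γ : Subgroup (Grp n r)} (hΓ : IsUQ Γ)
    {L : LineBundle Γ} {ρ : (Fin n → ℂ) → ℂ} {σ : MvPolynomial (Co r) ℂ} {l k : Fin c → ℕ}
    {β : (Fin n → ℂ) → MvPolynomial (Co r) ℂ} {m : ℕ} {H : (Fin n → ℂ) → (Fin n → ℂ) → ℂ}
    (hρ : IsRamification Γ ρ σ l) (hm : 1 ≤ m) (hβ : IsEffective β k)
    (hL : IsLogPluricanonical L m ρ σ l β k) (hklt : IsKlt m ρ σ β) (hc : L.IsChernForm H)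
    (hn : L.IsNef H) : L.IsSemiample := by
  classical
  obtain ⟨P, hP, R, hR, hdiag⟩ := exists_diagonal hΓ
  have hQ : IsFlatQuotient (chg P Γ) := by
    refine ⟨?_, ?_, ?_, ?_⟩
    · intro g hg z j
      have h1 : g.2 z = P.symm ((cj P g).2 (P z)) := by
        rw [cj_apply, LinearEquiv.symm_apply_apply]
      have h2 : BU (lm P.symm) := hP.symm
      rw [h1]
      exact ((h2 _ j).trans (hΓ.unitary _ hg _ j)).trans (hP z j)
    · intro μ hμ
      rw [mem_chg, cj_scal hP]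
      exact hΓ.scalar μ hμ
    · rw [GA_chg]
      exact hΓ.torus
    · refine relIndex_of_cover _ _ (R := (fun y : Grp n r => ((y.1, P⁻¹ * y.2 * P) : Grp n r)) '' R)
        (hR.image _) fun x hx => ?_
      obtain ⟨y, hy, χ, hχ⟩ := hdiag _ hx
      refine ⟨_, ⟨y, hy, rfl⟩, ?_⟩
      obtain ⟨w, hw⟩ : ∃ w : Grp n r, w = ((y.1, P⁻¹ * y.2 * P) : Grp n r)⁻¹ * x := ⟨_, rfl⟩
      have h1 : cj P w = y⁻¹ * cj P x := by
        rw [hw, map_mul, map_inv]
        congr 2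
        refine Prod.ext rfl ?_
        change P * (P⁻¹ * y.2 * P) * P⁻¹ = y.2
        group
      have h2 : ∀ z, w.2 z = fun s => χ s * z s := by
        intro z
        apply P.injective
        rw [← cj_apply, h1]
        exact hχ z
      have h3 : ∀ s, χ s ≠ 0 := by
        intro s hs
        have h4 := h2 (Pi.single s 1)
        have h5 : (fun t => χ t * (Pi.single s 1 : Co r → ℂ) t) = 0 := by
          funext t
          by_cases ht : t = s
          · subst ht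
            rw [hs, zero_mul]
            rfl
          · rw [Pi.single_eq_of_ne ht, mul_zero]
            rfl
        rw [h5] at h4
        have h6 := w.2.injective (h4.trans (map_zero w.2).symm)
        have h7 := congrFun h6 s
        rw [Pi.single_eq_same] at h7
        exact one_ne_zero h7
      change ((y.1, P⁻¹ * y.2 * P) : Grp n r)⁻¹ * x ∈ Diags n r
      rw [← hw]
      refine ⟨fun s => Units.mk0 (χ s) (h3 s), LinearEquiv.ext fun z => ?_⟩
      rw [MonoidHom.coe_snd, h2]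
      rfl
  have h1 : IsRamification (chg P Γ) ρ (sub P σ) l := by
    refine ⟨hρ.holo, hρ.rne, ?_, sub_ne_zero hρ.ne_zero, isHomog_sub hP hρ.homog, fun g hg => ?_⟩
    · rw [GV_chg hP]
      exact hρ.rzero
    · obtain ⟨a, ha⟩ := hρ.inv _ hg
      refine ⟨a, fun z => ?_⟩
      rw [eval_sub, eval_sub, ← cj_apply]
      exact ha (P z)
  have h2 : IsEffective (fun v => sub P (β v)) k := by
    refine ⟨fun I => holo_sub hβ.holo hβ.homog I, fun v => isHomog_sub hP (hβ.homog v), ?_⟩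
    obtain ⟨v, hv⟩ := hβ.ne_zero
    exact ⟨v, sub_ne_zero hv⟩
  have h3 : IsLogPluricanonical (lbc hP L) m ρ (sub P σ) l (fun v => sub P (β v)) k := by
    refine ⟨hL.deg, fun g v z => ?_⟩
    have h4 := hL.eq ⟨cj P g, g.2⟩ v (P z)
    have h5 : ((⟨cj P g, g.2⟩ : Γ) : Grp n r).2 (P z) = P ((g : Grp n r).2 z) := cj_apply P _ z
    have h6 : LinearMap.det (lm ((⟨cj P g, g.2⟩ : Γ) : Grp n r).2) =
        LinearMap.det (lm (g : Grp n r).2) := det_cj P _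
    rw [h5, h6] at h4
    rw [eval_sub, eval_sub, eval_sub, eval_sub]
    exact h4
  have h4 : (lbc hP L).IsChernForm H := by
    obtain ⟨hH, f, hf, h⟩ := hc
    exact ⟨hH, f, hf, fun g v => h ⟨cj P g, g.2⟩ v⟩
  obtain ⟨M, hM, h5⟩ := semiample hQ h1 hm h2 h3 (klt_chg hP hklt) h4 hn
  refine ⟨M, hM, fun v z hz => ?_⟩
  obtain ⟨s, hs, hs0⟩ := h5 v (P.symm z) ((BU.symm hP).isPt hz)
  refine ⟨fun p => s (p.1, P.symm p.2), ⟨?_, ?_, ?_⟩, hs0⟩
  · have h6 : Differentiable ℂ fun p : (Fin n → ℂ) × (Co r → ℂ) => (p.1, P.symm p.2) := by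
      have h7 : Differentiable ℂ fun z => P.symm z :=
        ((P.symm : (Co r → ℂ) →ₗ[ℂ] (Co r → ℂ)).toContinuousLinearMap).differentiable
      exact differentiable_fst.prodMk (h7.comp differentiable_snd)
    exact hs.holo.comp h6
  · intro μ v z
    have h6 : P.symm (scal μ z) = scal μ (P.symm z) := (BU.symm hP).scal μ z
    change s (v, P.symm (scal μ z)) = _ * s (v, P.symm z)
    rw [h6]
    exact hs.homog μ v _
  · intro g v z
    have h6 : cj P ((((g : Grp n r).1, P⁻¹ * (g : Grp n r).2 * P)) : Grp n r) = (g : Grp n r) := by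
      refine Prod.ext rfl ?_
      change P * (P⁻¹ * (g : Grp n r).2 * P) * P⁻¹ = (g : Grp n r).2
      group
    have h7 : ((((g : Grp n r).1, P⁻¹ * (g : Grp n r).2 * P)) : Grp n r) ∈ chg P Γ := by
      rw [mem_chg, h6]
      exact g.2
    have h8 := hs.eq ⟨_, h7⟩ v (P.symm z)
    change s ((g : Grp n r).1 v, P.symm ((g : Grp n r).2 (P (P.symm z)))) = _ at h8
    rw [LinearEquiv.apply_symm_apply] at h8
    change s ((g : Grp n r).1 v, P.symm ((g : Grp n r).2 z)) = _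
    rw [h8]
    congr 1
    change L.e ⟨cj P _, _⟩ v ^ M = L.e g v ^ M
    congr 3

end Pool.Agent.H896.IQ
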