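import Pool.Agent.H896.IQ.Nrm
import Pool.Graph.R_pool_sql_team_seeded_3997aac3.Q47.MM.Kan

/-!
# Effective classes are nef
-/

set_option autoImplicit false

namespace Pool.Agent.H896.IG

open MvPolynomial Pool.Agent.T2H08.FB Pool.Agent.W594.SYZ2 Pool.Agent.W594.SYZ2.TQ
  Pool.Agent.TH735.AQ
open Pool.Agent.T2H08 Pool.Agent.H896.IQ

variable {n c : ℕ} {r : Fin c → ℕ} {Γ : Subgroup (Trans n r)}

/-- the points with coordinates of norm one -/
def IsUnit' (z : Co r → ℂ) : Prop := ∀ j, ∑ i, ‖z ⟨j, i⟩‖ ^ 2 = 1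

theorem isCompact_unit : IsCompact {z : Co r → ℂ | IsUnit' z} := by
  refine Metric.isCompact_of_isClosed_isBounded ?_ ?_
  · have h1 : {z : Co r → ℂ | IsUnit' z} = ⋂ j, {z : Co r → ℂ | ∑ i, ‖z ⟨j, i⟩‖ ^ 2 = 1} := by
      ext z
      simp [IsUnit']
    rw [h1]
    refine isClosed_iInter fun j => isClosed_eq ?_ continuous_const
    exact continuous_finsetSum _ fun i _ => ((continuous_apply _).norm).pow 2
  · rw [isBounded_iff_forall_norm_le]
    refine ⟨1, fun z hz => ?_⟩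
    refine (pi_norm_le_iff_of_nonneg zero_le_one).2 ?_
    rintro ⟨j, i⟩
    have h1 : ‖z ⟨j, i⟩‖ ^ 2 ≤ 1 := by
      rw [← hz j]
      exact Finset.single_le_sum (f := fun i => ‖z ⟨j, i⟩‖ ^ 2) (fun _ _ => sq_nonneg _)
        (Finset.mem_univ i)
    nlinarith [norm_nonneg (z ⟨j, i⟩)]

theorem exists_unit {z : Co r → ℂ} (hz : IsPt z) : ∃ μ : Fin c → ℂˣ, IsUnit' (mulBy μ z) := by
  have h1 : ∀ j, 0 < ∑ i, ‖z ⟨j, i⟩‖ ^ 2 := by
    intro j
    obtain ⟨i, hi⟩ := hz j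
    exact Finset.sum_pos' (fun _ _ => sq_nonneg _) ⟨i, Finset.mem_univ _, by positivity⟩
  refine ⟨fun j => Units.mk0 (((Real.sqrt (∑ i, ‖z ⟨j, i⟩‖ ^ 2))⁻¹ : ℝ) : ℂ)
    (Complex.ofReal_ne_zero.2 (inv_ne_zero (Real.sqrt_pos.2 (h1 j)).ne')), fun j => ?_⟩
  change ∑ i, ‖(((Real.sqrt (∑ i, ‖z ⟨j, i⟩‖ ^ 2))⁻¹ : ℝ) : ℂ) * z ⟨j, i⟩‖ ^ 2 = 1
  have h2 : ∀ i, ‖(((Real.sqrt (∑ i, ‖z ⟨j, i⟩‖ ^ 2))⁻¹ : ℝ) : ℂ) * z ⟨j, i⟩‖ ^ 2 =
      (∑ i, ‖z ⟨j, i⟩‖ ^ 2)⁻¹ * ‖z ⟨j, i⟩‖ ^ 2 := by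
    intro i
    rw [norm_mul, mul_pow, Complex.norm_real, Real.norm_eq_abs, sq_abs, inv_pow,
      Real.sq_sqrt (h1 j).le]
  rw [Finset.sum_congr rfl fun i _ => h2 i, ← Finset.mul_sum, inv_mul_cancel₀ (h1 j).ne']

/-- The degrees of an effective line bundle are not negative. -/
theorem deg_of_section {L : LineBundle Γ} {M : ℕ} (hM : 1 ≤ M)
    {s : (Fin n → ℂ) → (Co r → ℂ) → ℂ} (hs : L.IsSection M s) {v : Fin n → ℂ} {z : Co r → ℂ}
    (h0 : s v z ≠ 0) (j : Fin c) : 0 ≤ L.deg j := by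
  classical
  by_contra hneg
  push Not at hneg
  obtain ⟨K, hK⟩ : ∃ K : ℕ, (K : ℤ) = -((M : ℤ) * L.deg j) :=
    ⟨(-((M : ℤ) * L.deg j)).toNat, Int.toNat_of_nonneg (by nlinarith)⟩
  have hK0 : K ≠ 0 := by
    rintro rfl
    push_cast at hK
    have : (0 : ℤ) < -((M : ℤ) * L.deg j) := by
      have h1 : (1 : ℤ) ≤ M := by exact_mod_cast hM
      nlinarith
    omega
  let zt : ℂ → Co r → ℂ := fun t s => (if s.1 = j then t else 1) * z s
  have hzt : Continuous zt := by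
    refine continuous_pi fun s => ?_
    by_cases h : s.1 = j
    · simp only [zt, h, if_true]
      exact continuous_id.mul continuous_const
    · simp only [zt, h, if_false]
      exact continuous_const
  have hg : Continuous fun t => t ^ K * s v (zt t) := by
    have h1 : Continuous fun t : ℂ => s v (zt t) :=
      hs.holo.continuous.comp (continuous_const.prodMk hzt)
    exact (continuous_pow K).mul h1
  have h1 : (fun t => t ^ K * s v (zt t)) = fun _ => s v z := by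
    refine Continuous.ext_on (dense_compl_singleton (0 : ℂ)) hg continuous_const ?_
    intro t ht
    have ht0 : t ≠ 0 := ht
    have h2 := hs.homog (Pi.mulSingle j (Units.mk0 t ht0)) v z
    have h3 : mulBy (Pi.mulSingle j (Units.mk0 t ht0)) z = zt t := by
      funext x
      change ((Pi.mulSingle j (Units.mk0 t ht0) : Fin c → ℂˣ) x.1 : ℂ) * z x = _
      by_cases h : x.1 = j
      · simp only [zt, h, if_true]
        rw [Pi.mulSingle_eq_same, Units.val_mk0]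
      · simp only [zt, h, if_false]
        rw [Pi.mulSingle_eq_of_ne h, Units.val_one]
    have h4 : ∏ j', ((Pi.mulSingle j (Units.mk0 t ht0) : Fin c → ℂˣ) j' : ℂ) ^ (M * L.deg j') =
        t ^ (M * L.deg j) := by
      rw [Finset.prod_eq_single j]
      · rw [Pi.mulSingle_eq_same, Units.val_mk0]
      · intro j' _ hj'
        rw [Pi.mulSingle_eq_of_ne hj', Units.val_one, one_zpow]
      · intro h
        exact absurd (Finset.mem_univ _) h
    rw [h3, h4] at h2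
    change t ^ K * s v (zt t) = s v z
    rw [h2, ← mul_assoc, ← zpow_natCast, ← zpow_add₀ ht0, hK, neg_add_cancel, zpow_zero, one_mul]
  have h2 := congrFun h1 0
  simp only [zero_pow hK0, zero_mul] at h2
  exact h0 h2.symm

/-- **Effective classes are nef.** -/
theorem nef_of_section (hΓ : IsIsometryGroup Γ) {L : LineBundle Γ}
    {H : (Fin n → ℂ) → (Fin n → ℂ) → ℂ} (hc : L.IsChernForm H) {M : ℕ} (hM : 1 ≤ M)
    {s : (Fin n → ℂ) → (Co r → ℂ) → ℂ} (hs : L.IsSection M s)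
    (hs0 : ∃ v z, IsPt z ∧ s v z ≠ 0) : L.IsNef H := by
  obtain ⟨v₀, z₁, hz₁, hv₀⟩ := hs0
  refine ⟨?_, fun j => deg_of_section hM hs hv₀ j⟩
  obtain ⟨hH, f, hf, hfe⟩ := hc
  obtain ⟨μ, hμ⟩ := exists_unit hz₁
  obtain ⟨z₀, hz₀⟩ : ∃ z₀, z₀ = mulBy μ z₁ := ⟨_, rfl⟩
  have hv₀ : s v₀ z₀ ≠ 0 := by
    rw [hz₀, hs.homog]
    exact mul_ne_zero (Finset.prod_ne_zero_iff.2 fun j _ => zpow_ne_zero _ (Units.ne_zero _)) hv₀
  rw [← hz₀] at hμ
  have hMr : (0 : ℝ) < M := by exact_mod_cast hM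
  let φ : (Fin n → ℂ) × (Co r → ℂ) → ℝ := fun p =>
    ‖s p.1 p.2‖ ^ 2 * Real.exp (-(M * (Real.pi * (H p.1 p.1).re + 2 * (f p.1).re)))
  have hφc : Continuous φ := by
    refine ((hs.holo.continuous.norm).pow 2).mul (Real.continuous_exp.comp (Continuous.neg ?_))
    refine Continuous.mul continuous_const (Continuous.add ?_ ?_)
    · exact continuous_const.mul ((diag_continuous hH).comp continuous_fst)
    · exact continuous_const.mul (Complex.continuous_re.comp (hf.continuous.comp continuous_fst))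
  have hinv : ∀ g ∈ Γ, ∀ p, φ (act g p) = φ p := by
    intro g hg p
    change ‖s (onV g p.1) (onZ g p.2)‖ ^ 2 * Real.exp (-(M * (Real.pi *
      (H (onV g p.1) (onV g p.1)).re + 2 * (f (onV g p.1)).re))) = _
    have h1 : ‖L.e g p.1 ^ M‖ ^ 2 = (‖L.e g p.1‖ ^ 2) ^ M := by
      rw [norm_pow, ← pow_mul, ← pow_mul, mul_comm]
    rw [hs.eq g hg, norm_mul, mul_pow, h1, hfe g hg, ← Real.exp_nat_mul]
    change _ = ‖s p.1 p.2‖ ^ 2 * Real.exp (-(M * (Real.pi * (H p.1 p.1).re + 2 * (f p.1).re)))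
    rw [mul_comm (Real.exp _) (‖s p.1 p.2‖ ^ 2), mul_assoc, ← Real.exp_add]
    congr 2
    ring
  obtain ⟨C, hC⟩ := cobounded (latt (FQ.GA (fac Γ))) (isUQ hΓ).torus.span_top
  have hK : IsCompact (Metric.closedBall (0 : Fin n → ℂ) C ×ˢ {z : Co r → ℂ | IsUnit' z}) :=
    (isCompact_closedBall _ _).prod isCompact_unit
  obtain ⟨R, hR⟩ := (isBounded_iff_forall_norm_le.1 (hK.image hφc).isBounded)
  have hbd : ∀ v z, IsUnit' z → φ (v, z) ≤ R := by
    intro v z hz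
    obtain ⟨b, hb, hbC⟩ := hC v
    obtain ⟨A, hA⟩ := FQ.mem_GA.1 (mem_latt.1 hb)
    obtain ⟨g, hg⟩ : ∃ g : Trans n r, g = ((AffineEquiv.constVAdd ℂ (Fin n → ℂ) b, A) :
      FQ.Grp n r) := ⟨_, rfl⟩
    have h1 : g ∈ Γ ∧ Permutes g 1 := by
      rw [hg]
      exact hA
    rw [← hinv g h1.1 (v, z)]
    refine (le_abs_self _).trans (hR _ ⟨act g (v, z), ⟨?_, fun j => ?_⟩, rfl⟩)
    · rw [mem_closedBall_zero_iff]
      have h2 : (act g (v, z)).1 = b + v := by rw [hg]; rfl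
      rw [h2]
      exact hbC
    · have h2 := h1.2 z j
      exact h2.trans (hz j)
  have hR0 : 0 ≤ R := (mul_nonneg (sq_nonneg _) (Real.exp_pos _).le).trans (hbd v₀ z₀ hμ)
  intro x
  by_contra hneg
  push Not at hneg
  let h : ℂ → ℂ := fun t => s (v₀ + t • x) z₀ * Complex.exp (-(M * f (v₀ + t • x))) *
    Complex.exp (-(M * Real.pi * (t * H x v₀)))
  have hline : Differentiable ℂ fun t : ℂ => v₀ + t • x :=
    (differentiable_id.smul_const x).const_add v₀
  have hh : Differentiable ℂ h := by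
    refine ((hs.holo.comp (hline.prodMk (differentiable_const z₀))).mul ?_).mul ?_
    · exact (((hf.comp hline).const_mul (M : ℂ)).neg).cexp
    · exact (((differentiable_id.mul_const (H x v₀)).const_mul (M * Real.pi : ℂ)).neg).cexp
  have h0 := Q47.MM.zero_of_decay hh (R := R * Real.exp (M * Real.pi * (H v₀ v₀).re))
    (c := M * Real.pi * (-(H x x).re)) (by positivity)
    (mul_pos (mul_pos hMr Real.pi_pos) (neg_pos.2 hneg)) (by
      intro t
      have e1 : (H (v₀ + t • x) (v₀ + t • x)).re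
          = (H v₀ v₀).re + ‖t‖ ^ 2 * (H x x).re + 2 * (t * H x v₀).re := by
        rw [add_comm v₀, h_diag_add hH, h_diag_smul hH, hH.smul_left]
        ring
      have hMre : ∀ w : ℂ, ((M : ℂ) * w).re = M * w.re := by
        intro w
        have : ((M : ℕ) : ℂ) = ((M : ℝ) : ℂ) := by push_cast; rfl
        rw [this, Complex.re_ofReal_mul]
      have e2 : ‖Complex.exp (-(M * Real.pi * (t * H x v₀)))‖ ^ 2
          = Real.exp (-(2 * (M * Real.pi * (t * H x v₀).re))) := by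
        rw [Complex.norm_exp, Complex.neg_re, mul_assoc, hMre, Complex.re_ofReal_mul,
          ← Real.exp_nat_mul]
        congr 1
        push_cast
        ring
      have e2' : ‖Complex.exp (-(M * f (v₀ + t • x)))‖ ^ 2
          = Real.exp (-(2 * (M * (f (v₀ + t • x)).re))) := by
        rw [Complex.norm_exp, Complex.neg_re, hMre, ← Real.exp_nat_mul]
        congr 1
        push_cast
        ring
      have e4 : ‖s (v₀ + t • x) z₀‖ ^ 2 ≤ R * Real.exp (M * (Real.pi *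
          (H (v₀ + t • x) (v₀ + t • x)).re + 2 * (f (v₀ + t • x)).re)) := by
        have e5 : ‖s (v₀ + t • x) z₀‖ ^ 2 * Real.exp (-(M * (Real.pi *
          (H (v₀ + t • x) (v₀ + t • x)).re + 2 * (f (v₀ + t • x)).re))) ≤ R :=
          hbd (v₀ + t • x) z₀ hμ
        rwa [Real.exp_neg, ← div_eq_mul_inv, div_le_iff₀ (Real.exp_pos _)] at e5
      change ‖s (v₀ + t • x) z₀ * Complex.exp (-(M * f (v₀ + t • x))) *
        Complex.exp (-(M * Real.pi * (t * H x v₀)))‖ ^ 2 ≤ _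
      rw [norm_mul, norm_mul, mul_pow, mul_pow, e2, e2']
      have e6 : ‖s (v₀ + t • x) z₀‖ ^ 2 * Real.exp (-(2 * (M * (f (v₀ + t • x)).re))) *
          Real.exp (-(2 * (M * Real.pi * (t * H x v₀).re))) ≤
          R * Real.exp (M * (Real.pi * (H (v₀ + t • x) (v₀ + t • x)).re +
            2 * (f (v₀ + t • x)).re)) * Real.exp (-(2 * (M * (f (v₀ + t • x)).re))) *
          Real.exp (-(2 * (M * Real.pi * (t * H x v₀).re))) := by
        gcongr
      refine e6.trans (le_of_eq ?_)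
      rw [mul_assoc R, ← Real.exp_add, mul_assoc R, ← Real.exp_add, mul_assoc R, ← Real.exp_add, e1]
      congr 2
      ring) 0
  have h1 : s (v₀ + (0 : ℂ) • x) z₀ * Complex.exp (-(M * f (v₀ + (0 : ℂ) • x))) *
    Complex.exp (-(M * Real.pi * ((0 : ℂ) * H x v₀))) = 0 := h0
  rw [zero_smul, add_zero] at h1
  exact (mul_ne_zero (mul_ne_zero hv₀ (Complex.exp_ne_zero _)) (Complex.exp_ne_zero _)) h1

theorem nef_of_effective (hΓ : IsIsometryGroup Γ) {L : LineBundle Γ}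
    {H : (Fin n → ℂ) → (Fin n → ℂ) → ℂ} (hc : L.IsChernForm H) (h : L.IsQEffective) :
    L.IsNef H := by
  obtain ⟨M, hM, s, hs, hs0⟩ := h
  exact nef_of_section hΓ hc hM hs hs0

theorem effective_of_semiample {L : LineBundle Γ} (h : L.IsSemiample) : L.IsQEffective := by
  obtain ⟨M, hM, h⟩ := h
  have h1 : IsPt (fun _ : Co r => (1 : ℂ)) := fun j => ⟨0, one_ne_zero⟩
  obtain ⟨s, hs, hs0⟩ := h 0 _ h1
  exact ⟨M, hM, s, hs, 0, _, h1, hs0⟩

end Pool.Agent.H896.IG
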