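import Pool.Agent.H896.IQ.Stmt
import Pool.Agent.H896.IQ.Bie
import Pool.Agent.H896.IQ.Core
import Pool.Graph.R_pool_sql_team_seeded_707910d6.T2H08.FQ.Bridge

/-!
# Groups of isometries: the subgroup preserving the factors, norms
-/

set_option autoImplicit false

namespace Pool.Agent.H896.IG

open MvPolynomial Pool.Agent.T2H08.FB Pool.Agent.W594.SYZ2
open Pool.Agent.T2H08 Pool.Agent.H896.IQ

variable {n c : ℕ} {r : Fin c → ℕ}

theorem Permutes.mul {g h : Trans n r} {π τ : Equiv.Perm (Fin c)} (hg : Permutes g π)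
    (hh : Permutes h τ) : Permutes (g * h) (π * τ) := fun z j =>
  (hg (onZ h z) (τ j)).trans (hh z j)

theorem onZ_inv (g : Trans n r) (z : Co r → ℂ) : onZ g (onZ g⁻¹ z) = z := by
  change (g.2 * g.2⁻¹) z = z
  rw [mul_inv_cancel]
  rfl

theorem onZ_inv' (g : Trans n r) (z : Co r → ℂ) : onZ g⁻¹ (onZ g z) = z := by
  change (g.2⁻¹ * g.2) z = z
  rw [inv_mul_cancel]
  rfl

theorem onV_inv (g : Trans n r) (v : Fin n → ℂ) : onV g (onV g⁻¹ v) = v := by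
  change (g.1 * g.1⁻¹) v = v
  rw [mul_inv_cancel]
  rfl

theorem onV_inv' (g : Trans n r) (v : Fin n → ℂ) : onV g⁻¹ (onV g v) = v := by
  change (g.1⁻¹ * g.1) v = v
  rw [inv_mul_cancel]
  rfl

theorem Permutes.inv {g : Trans n r} {π : Equiv.Perm (Fin c)} (hg : Permutes g π) :
    Permutes g⁻¹ π⁻¹ := by
  intro z j
  have h1 := hg (onZ g⁻¹ z) (π⁻¹ j)
  rw [onZ_inv] at h1
  have h2 : π (π⁻¹ j) = j := π.apply_symm_apply j
  have h3 : ∑ i, ‖z ⟨π (π⁻¹ j), i⟩‖ ^ 2 = ∑ i, ‖z ⟨j, i⟩‖ ^ 2 := by rw [h2]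
  rw [h3] at h1
  exact h1.symm

theorem permutes_one : Permutes (1 : Trans n r) 1 := fun _ _ => rfl

/-- the subgroup of the elements which preserve the factors -/
def fac (Γ : Subgroup (Trans n r)) : Subgroup (FQ.Grp n r) where
  carrier := {g | g ∈ Γ ∧ Permutes g 1}
  one_mem' := ⟨Γ.one_mem, permutes_one⟩
  mul_mem' := fun h1 h2 => ⟨Γ.mul_mem h1.1 h2.1, by
    have h3 := h1.2.mul h2.2
    rwa [one_mul] at h3⟩
  inv_mem' := fun h1 => ⟨Γ.inv_mem h1.1, by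
    have h3 := h1.2.inv
    rwa [inv_one] at h3⟩

theorem mem_fac {Γ : Subgroup (Trans n r)} {g : FQ.Grp n r} :
    g ∈ fac Γ ↔ g ∈ Γ ∧ Permutes g 1 := Iff.rfl

theorem norm_one_of_scal {μ : Fin c → ℂˣ} {h : Trans n r} {π : Equiv.Perm (Fin c)}
    (hh : Permutes h π) (h1 : ∀ z, onZ h z = mulBy μ z) : ∀ j, ‖(μ j : ℂ)‖ = 1 := by
  classical
  intro j
  have h2 := hh (fun s => if s.1 = j then 1 else 0)
  have h3 : π j = j := by
    by_contra hcon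
    have h4 := h2 j
    rw [h1] at h4
    have h5 : ∑ i : Fin (r (π j) + 1), ‖mulBy μ (fun s : Co r => if s.1 = j then 1 else 0)
        ⟨π j, i⟩‖ ^ 2 = 0 := by
      refine Finset.sum_eq_zero fun i _ => ?_
      change ‖(μ (π j) : ℂ) * (if π j = j then 1 else 0)‖ ^ 2 = 0
      rw [if_neg hcon, mul_zero, norm_zero]
      norm_num
    rw [h5] at h4
    simp at h4
    exact absurd h4 (by positivity)
  have h4 := h2 j
  rw [h1] at h4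
  have h5 : ∑ i : Fin (r (π j) + 1), ‖mulBy μ (fun s : Co r => if s.1 = j then 1 else 0)
      ⟨π j, i⟩‖ ^ 2 = ‖(μ j : ℂ)‖ ^ 2 * ∑ i : Fin (r j + 1), ‖((1 : ℂ))‖ ^ 2 := by
    rw [h3, Finset.mul_sum]
    refine Finset.sum_congr rfl fun i _ => ?_
    change ‖(μ j : ℂ) * (if j = j then 1 else 0)‖ ^ 2 = _
    rw [if_pos rfl, norm_mul, mul_pow]
  rw [h5] at h4
  have h6 : ∑ i : Fin (r j + 1), ‖(if (⟨j, i⟩ : Co r).1 = j then (1 : ℂ) else 0)‖ ^ 2 =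
      ∑ i : Fin (r j + 1), ‖((1 : ℂ))‖ ^ 2 := by
    refine Finset.sum_congr rfl fun i _ => ?_
    rw [if_pos rfl]
  rw [h6] at h4
  have h7 : (∑ i : Fin (r j + 1), ‖((1 : ℂ))‖ ^ 2) ≠ 0 := by
    simp
    positivity
  have h8 := (mul_eq_right₀ h7).1 h4
  exact (pow_eq_one_iff_of_nonneg (norm_nonneg _) two_ne_zero).1 h8

theorem scal_mem {Γ : Subgroup (Trans n r)} (hΓ : IsIsometryGroup Γ) (μ : Fin c → ℂˣ)
    (hμ : ∀ j, ‖(μ j : ℂ)‖ = 1) : ((1, FQ.scal μ) : FQ.Grp n r) ∈ fac Γ := by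
  obtain ⟨g, hg, h1, h2⟩ := hΓ.scalar μ hμ
  have h3 : ((1, FQ.scal μ) : FQ.Grp n r) = g :=
    Prod.ext (AffineEquiv.ext fun v => (h1 v).symm) (LinearEquiv.ext fun z => (h2 z).symm)
  refine ⟨h3 ▸ hg, fun z j => ?_⟩
  change ∑ i, ‖(μ j : ℂ) * z ⟨j, i⟩‖ ^ 2 = _
  refine Finset.sum_congr rfl fun i _ => ?_
  rw [norm_mul, hμ, one_mul]

/-- finitely many cosets -/
theorem fac_cover {Γ : Subgroup (Trans n r)} (hΓ : IsIsometryGroup Γ) :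
    ∃ R : Set (Trans n r), R.Finite ∧ R ⊆ (Γ : Set (Trans n r)) ∧
      ∀ x ∈ Γ, ∃ y ∈ R, y⁻¹ * x ∈ Γ ∧ Permutes (y⁻¹ * x) 1 := by
  classical
  let A : Set (Equiv.Perm (Fin c)) := {π | ∃ g ∈ Γ, Permutes g π}
  have h1 : ∀ π ∈ A, ∃ g ∈ Γ, Permutes g π := fun π h => h
  choose! f hf1 hf2 using h1
  refine ⟨f '' A, (Set.toFinite A).image _, ?_, fun x hx => ?_⟩
  · rintro _ ⟨π, hπ, rfl⟩
    exact hf1 π hπ
  · obtain ⟨π, hπ⟩ := hΓ.isoF x hx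
    have hA : π ∈ A := ⟨x, hx, hπ⟩
    refine ⟨f π, ⟨π, hA, rfl⟩, Γ.mul_mem (Γ.inv_mem (hf1 π hA)) hx, ?_⟩
    have h2 := (hf2 π hA).inv.mul hπ
    rwa [inv_mul_cancel] at h2

theorem torus_all {Γ : Subgroup (Trans n r)} (hΓ : IsIsometryGroup Γ) :
    IsTorusQuotient (FQ.GA (conv Γ)) := by
  obtain ⟨R, hR⟩ := hΓ.cocompact
  refine torus_of_isometric (r := R) ?_ ?_ ?_
  · intro γ hγ v w
    obtain ⟨A, hA⟩ := FQ.mem_GA.1 hγ
    exact hΓ.isoV _ hA v w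
  · intro R
    obtain ⟨S, hS, h⟩ := hΓ.discrete R
    refine (hS.image fun g : Trans n r => g.1).subset ?_
    rintro γ ⟨hγ, h1⟩
    obtain ⟨A, hA⟩ := FQ.mem_GA.1 hγ
    obtain ⟨g, hg, h2, -⟩ := h _ hA h1
    exact ⟨g, hg, AffineEquiv.ext fun v => (h2 v).symm⟩
  · intro v
    obtain ⟨g, hg, h⟩ := hR v
    exact ⟨g.1, FQ.mem_GA.2 ⟨g.2, hg⟩, h⟩

theorem pow_mem_fac {Γ : Subgroup (Trans n r)} (hΓ : IsIsometryGroup Γ) {g : FQ.Grp n r}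
    (hg : g ∈ conv Γ) : ∃ N : ℕ, 1 ≤ N ∧ g ^ N ∈ fac Γ := by
  obtain ⟨R, hR, -, h⟩ := fac_cover hΓ
  have h1 : (fac Γ).relIndex (conv Γ) ≠ 0 := relIndex_of_cover (fac Γ) (conv Γ) hR h
  obtain ⟨N, hN, -, h2⟩ := Subgroup.exists_pow_mem_of_index_ne_zero h1 ⟨g, hg⟩
  exact ⟨N, hN, Subgroup.mem_subgroupOf.1 h2⟩

theorem isUQ {Γ : Subgroup (Trans n r)} (hΓ : IsIsometryGroup Γ) : IsUQ (fac Γ) := by
  refine ⟨fun g hg => hg.2, scal_mem hΓ, ?_, ?_⟩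
  · refine FQ.torus_of_le (torus_all hΓ) ?_ ?_
    · intro γ hγ
      obtain ⟨A, hA⟩ := FQ.mem_GA.1 hγ
      exact FQ.mem_GA.2 ⟨A, hA.1⟩
    · intro b hb
      obtain ⟨A, hA⟩ := FQ.mem_GA.1 (mem_latt.1 hb)
      obtain ⟨N, hN, h⟩ := pow_mem_fac hΓ hA
      refine ⟨N, hN, mem_latt.2 (FQ.mem_GA.2 ⟨A ^ N, ?_⟩)⟩
      have h2 : ((AffineEquiv.constVAdd ℂ (Fin n → ℂ) (N • b), A ^ N) : FQ.Grp n r) =
          (AffineEquiv.constVAdd ℂ (Fin n → ℂ) b, A) ^ N := by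
        refine Prod.ext ?_ rfl
        rw [Prod.pow_fst, FQ.constVAdd_pow]
      rw [h2]
      exact h
  · obtain ⟨S, hS, h⟩ := hΓ.discrete 0
    refine ⟨S, hS, fun g hg h1 => ?_⟩
    obtain ⟨x, hx, -, μ, hμ⟩ := h g hg.1 (by
      have h2 : onV (g : Trans n r) 0 = 0 := by
        change g.1 0 = 0
        rw [h1]
        rfl
      rw [h2]
      simp)
    exact ⟨x, hx, μ, LinearEquiv.ext fun z => hμ z⟩

/-- the restriction of the line bundle -/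
def lbf {Γ : Subgroup (Trans n r)} (L : LineBundle Γ) : FQ.LineBundle (fac Γ) where
  deg := L.deg
  e := fun g => L.e g.1
  holo := fun g => L.holo g.1 g.2.1
  ne_zero := fun g => L.ne_zero g.1 g.2.1
  mul := fun g h v => L.mul g.1 g.2.1 h.1 h.2.1 v
  stab := fun g v z μ hz h1 h2 => L.stab g.1 g.2.1 v z μ hz h1 h2

end Pool.Agent.H896.IG
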