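import Mathlib

/-!
# Subgroups of finite index: central extensions of lattices by finite groups
-/

set_option autoImplicit false

namespace Pool.Agent.H896.IQ

variable {G : Type*} [Group G]

/-- finitely many cosets cover -/
theorem relIndex_of_cover (H K : Subgroup G) {R : Set G} (hR : R.Finite)
    (h : ∀ x ∈ K, ∃ r ∈ R, r⁻¹ * x ∈ H) : H.relIndex K ≠ 0 := by
  classical
  have hfin : Finite (K ⧸ H.subgroupOf K) := by
    have h1 : ∀ q : K ⧸ H.subgroupOf K, ∃ r : R, (r : G)⁻¹ * (q.out : G) ∈ H := fun q => by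
      obtain ⟨r, hr, hx⟩ := h q.out q.out.2
      exact ⟨⟨r, hr⟩, hx⟩
    choose f hf using h1
    have : Finite R := hR
    refine Finite.of_injective f fun q q' hq => ?_
    have h2 := hf q
    have h3 := hf q'
    rw [← hq] at h3
    have h4 : (q.out : G)⁻¹ * (q'.out : G) ∈ H := by
      have h5 := H.mul_mem (H.inv_mem h2) h3
      rw [mul_inv_rev, inv_inv] at h5
      have h6 : (q.out : G)⁻¹ * (f q : G) * ((f q : G)⁻¹ * (q'.out : G)) =
          (q.out : G)⁻¹ * (q'.out : G) := by group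
      rwa [h6] at h5
    have h5 : (QuotientGroup.mk q.out : K ⧸ H.subgroupOf K) = QuotientGroup.mk q'.out :=
      QuotientGroup.eq.2 (Subgroup.mem_subgroupOf.2 h4)
    rwa [QuotientGroup.out_eq', QuotientGroup.out_eq'] at h5
  exact Subgroup.index_ne_zero_of_finite

/-- a subgroup of finite index has finitely many cosets -/
theorem cover_of_relIndex (H K : Subgroup G) (h : H.relIndex K ≠ 0) :
    ∃ R : Set G, R.Finite ∧ R ⊆ K ∧ ∀ x ∈ K, ∃ r ∈ R, r⁻¹ * x ∈ H := by
  have hfi : (H.subgroupOf K).FiniteIndex := ⟨h⟩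
  have : Finite (K ⧸ H.subgroupOf K) := Subgroup.finite_quotient_of_finiteIndex
  refine ⟨Set.range fun q : K ⧸ H.subgroupOf K => (q.out : G), Set.finite_range _, ?_, ?_⟩
  · rintro _ ⟨q, rfl⟩
    exact q.out.2
  · intro x hx
    refine ⟨_, ⟨(QuotientGroup.mk (⟨x, hx⟩ : K) : K ⧸ H.subgroupOf K), rfl⟩, ?_⟩
    have h1 : (QuotientGroup.mk (QuotientGroup.mk (⟨x, hx⟩ : K) : K ⧸ H.subgroupOf K).out :
        K ⧸ H.subgroupOf K) = QuotientGroup.mk (⟨x, hx⟩ : K) := QuotientGroup.out_eq' _
    exact Subgroup.mem_subgroupOf.1 (QuotientGroup.eq.1 h1)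

/-- An extension of a finitely generated commutative group by a finite group has a commutative
subgroup of finite index. -/
theorem virt_comm {A : Type*} [CommGroup A] (π : G →* A) (hk : Finite π.ker) {s : Set G}
    (hs : s.Finite) (hgen : ∀ g, π g ∈ Subgroup.closure (π '' s)) :
    ∃ D : Subgroup G, D.FiniteIndex ∧ ∀ x ∈ D, ∀ y ∈ D, x * y = y * x := by
  classical
  have : Finite s := hs
  obtain ⟨B, hB⟩ : ∃ B : Subgroup G, B = Subgroup.closure s := ⟨_, rfl⟩
  obtain ⟨C, hC⟩ : ∃ C : Subgroup G, C = ⨅ g : s, Subgroup.centralizer {(g : G)} := ⟨_, rfl⟩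
  have hBfi : B.FiniteIndex := by
    refine ⟨?_⟩
    rw [← Subgroup.relIndex_top_right]
    refine relIndex_of_cover B ⊤ (R := (π.ker : Set G)) (Set.toFinite _) fun x _ => ?_
    have h1 := hgen x
    rw [← MonoidHom.map_closure, ← hB] at h1
    obtain ⟨b, hb, hbx⟩ := h1
    refine ⟨x * b⁻¹, ?_, ?_⟩
    · change π (x * b⁻¹) = 1
      rw [map_mul, map_inv, hbx, mul_inv_cancel]
    · have h2 : (x * b⁻¹)⁻¹ * x = b := by group
      rw [h2]
      exact hb
  have hCfi : C.FiniteIndex := by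
    rw [hC]
    refine Subgroup.finiteIndex_iInf fun g => ⟨?_⟩
    have h1 : Finite (G ⧸ Subgroup.centralizer {(g : G)}) := by
      have h2 : ∀ q : G ⧸ Subgroup.centralizer {(g : G)},
          q.out * (g : G) * q.out⁻¹ * (g : G)⁻¹ ∈ π.ker := by
        intro q
        rw [MonoidHom.mem_ker, map_mul, map_mul, map_mul, map_inv, map_inv,
          mul_comm (π q.out), mul_inv_cancel_right, mul_inv_cancel]
      refine Finite.of_injective (fun q => (⟨_, h2 q⟩ : π.ker)) fun q q' hq => ?_
      have h3 : q.out * (g : G) * q.out⁻¹ * (g : G)⁻¹ = q'.out * (g : G) * q'.out⁻¹ * (g : G)⁻¹ :=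
        congrArg Subtype.val hq
      have h4 : q.out⁻¹ * q'.out ∈ Subgroup.centralizer {(g : G)} := by
        rw [Subgroup.mem_centralizer_singleton_iff]
        have h5 := mul_right_cancel h3
        have h6 : (g : G) * q.out⁻¹ * q'.out = q.out⁻¹ * q'.out * (g : G) := by
          have h7 : q.out⁻¹ * (q.out * (g : G) * q.out⁻¹) * q'.out =
              q.out⁻¹ * (q'.out * (g : G) * q'.out⁻¹) * q'.out := by rw [h5]
          have h8 : q.out⁻¹ * (q.out * (g : G) * q.out⁻¹) * q'.out =
              (g : G) * q.out⁻¹ * q'.out := by group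
          have h9 : q.out⁻¹ * (q'.out * (g : G) * q'.out⁻¹) * q'.out =
              q.out⁻¹ * q'.out * (g : G) := by group
          rw [← h8, ← h9, h7]
        rw [← h6, mul_assoc]
      have h5 : (QuotientGroup.mk q.out : G ⧸ Subgroup.centralizer {(g : G)}) =
          QuotientGroup.mk q'.out := QuotientGroup.eq.2 h4
      rwa [QuotientGroup.out_eq', QuotientGroup.out_eq'] at h5
    exact Subgroup.index_ne_zero_of_finite
  have hcom : ∀ x ∈ C, ∀ y ∈ B, x * y = y * x := by
    intro x hx y hy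
    rw [hB] at hy
    induction hy using Subgroup.closure_induction with
    | mem y hy =>
      rw [hC, Subgroup.mem_iInf] at hx
      have h1 := hx ⟨y, hy⟩
      rw [Subgroup.mem_centralizer_singleton_iff] at h1
      exact h1
    | one => rw [mul_one, one_mul]
    | mul y z _ _ h1 h2 => rw [← mul_assoc, h1, mul_assoc, h2, mul_assoc]
    | inv y _ h1 =>
      have h2 : y⁻¹ * (x * y) * y⁻¹ = y⁻¹ * (y * x) * y⁻¹ := by rw [h1]
      have h3 : y⁻¹ * (x * y) * y⁻¹ = y⁻¹ * x := by group
      have h4 : y⁻¹ * (y * x) * y⁻¹ = x * y⁻¹ := by group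
      rw [← h3, ← h4, h2]
  refine ⟨C ⊓ B, inferInstance, fun x hx y hy => hcom x hx.1 y hy.2⟩

end Pool.Agent.H896.IQ
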