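import Pool.Agent.H896.IQ.Fin

/-!
# Norms of sections
-/

set_option autoImplicit false

namespace Pool.Agent.H896.IG

open MvPolynomial Pool.Agent.T2H08.FB Pool.Agent.W594.SYZ2
open Pool.Agent.T2H08 Pool.Agent.H896.IQ

variable {n c : ℕ} {r : Fin c → ℕ} {Γ : Subgroup (Trans n r)}

theorem Permutes.zero {g : Trans n r} {π : Equiv.Perm (Fin c)} (hg : Permutes g π)
    {z : Co r → ℂ} {j : Fin c} (hz : ∀ i, z ⟨j, i⟩ = 0) (i : Fin (r (π j) + 1)) :
    onZ g z ⟨π j, i⟩ = 0 := by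
  have h1 := hg z j
  have h2 : ∑ i, ‖z ⟨j, i⟩‖ ^ 2 = 0 := Finset.sum_eq_zero fun i _ => by rw [hz]; simp
  rw [h2] at h1
  have h3 := (Finset.sum_eq_zero_iff_of_nonneg (fun i _ => by positivity)).1 h1 i
    (Finset.mem_univ _)
  simpa using h3

theorem Permutes.isPt {g : Trans n r} {π : Equiv.Perm (Fin c)} (hg : Permutes g π)
    {z : Co r → ℂ} (hz : IsPt z) : IsPt (onZ g z) := by
  intro k
  obtain ⟨j, rfl⟩ := π.surjective k
  by_contra hcon
  push Not at hcon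
  have h1 := hg z j
  have h2 : ∑ i, ‖onZ g z ⟨π j, i⟩‖ ^ 2 = 0 := Finset.sum_eq_zero fun i _ => by
    rw [hcon]; simp
  rw [h2] at h1
  obtain ⟨i, hi⟩ := hz j
  have h3 := (Finset.sum_eq_zero_iff_of_nonneg (fun i _ => by positivity)).1 h1.symm i
    (Finset.mem_univ _)
  exact hi (by simpa using h3)

theorem Permutes.mulBy {g : Trans n r} {π : Equiv.Perm (Fin c)} (hg : Permutes g π)
    (μ : Fin c → ℂˣ) (z : Co r → ℂ) :
    onZ g (mulBy μ z) = mulBy (fun k => μ (π⁻¹ k)) (onZ g z) := by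
  funext ⟨k, i⟩
  obtain ⟨j, rfl⟩ := π.surjective k
  have h0 : π⁻¹ (π j) = j := π.symm_apply_apply j
  have h1 : onZ g (FB.mulBy μ z - (μ j : ℂ) • z) ⟨π j, i⟩ = 0 := by
    refine hg.zero (fun i => ?_) i
    rw [Pi.sub_apply, Pi.smul_apply, smul_eq_mul]
    exact sub_self _
  have h2 : onZ g (FB.mulBy μ z - (μ j : ℂ) • z) = onZ g (FB.mulBy μ z) - (μ j : ℂ) • onZ g z := by
    unfold onZ
    rw [map_sub, map_smul]
  rw [h2, Pi.sub_apply, Pi.smul_apply, smul_eq_mul, sub_eq_zero] at h1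
  rw [h1]
  change _ = (μ (π⁻¹ (π j)) : ℂ) * onZ g z ⟨π j, i⟩
  rw [h0]

theorem prod_perm (L : LineBundle Γ) {g : Trans n r} (hg : g ∈ Γ) {π : Equiv.Perm (Fin c)}
    (hπ : Permutes g π) (μ : Fin c → ℂˣ) :
    ∏ k, ((μ (π⁻¹ k) : ℂˣ) : ℂ) ^ L.deg k = ∏ j, (μ j : ℂ) ^ L.deg j := by
  rw [← Equiv.prod_comp π (fun k => ((μ (π⁻¹ k) : ℂˣ) : ℂ) ^ L.deg k)]
  refine Finset.prod_congr rfl fun j _ => ?_
  rw [L.perm g hg π hπ j]
  have h0 : π⁻¹ (π j) = j := π.symm_apply_apply j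
  rw [h0]

/-- the action on pairs -/
def act (g : Trans n r) (p : (Fin n → ℂ) × (Co r → ℂ)) : (Fin n → ℂ) × (Co r → ℂ) :=
  (onV g p.1, onZ g p.2)

theorem act_mul (g h : Trans n r) (p : (Fin n → ℂ) × (Co r → ℂ)) :
    act (g * h) p = act g (act h p) := rfl

theorem act_inv (g : Trans n r) (p : (Fin n → ℂ) × (Co r → ℂ)) : act g (act g⁻¹ p) = p :=
  Prod.ext (onV_inv g p.1) (onZ_inv g p.2)

theorem act_differentiable (g : Trans n r) : Differentiable ℂ (act g) :=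
  FQ.act2_differentiable (g : FQ.Grp n r)

/-- the elements which preserve the factors -/
def DF (Γ : Subgroup (Trans n r)) : Subgroup Γ where
  carrier := {g | Permutes (g : Trans n r) 1}
  one_mem' := permutes_one
  mul_mem' := fun h1 h2 => by
    have h3 := Permutes.mul h1 h2
    rwa [one_mul] at h3
  inv_mem' := fun h1 => by
    have h3 := Permutes.inv h1
    rwa [inv_one] at h3

theorem DF_index (hΓ : IsIsometryGroup Γ) : (DF Γ).index ≠ 0 := by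
  obtain ⟨R, hR, hRΓ, h⟩ := fac_cover hΓ
  rw [← Subgroup.relIndex_top_right]
  refine relIndex_of_cover (DF Γ) ⊤ (R := {y : Γ | (y : Trans n r) ∈ R})
    (hR.preimage Subtype.val_injective.injOn) fun x _ => ?_
  obtain ⟨y, hy, -, h2⟩ := h x x.2
  exact ⟨⟨y, hRΓ hy⟩, hy, h2⟩

variable (L : LineBundle Γ)

/-- The functions which are sections of `L ^ K` for the elements preserving the factors. -/
def SecF (K : ℕ) : Submodule ℂ ((Fin n → ℂ) × (Co r → ℂ) → ℂ) where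
  carrier := {s | Differentiable ℂ s ∧
    (∀ (μ : Fin c → ℂˣ) v z, s (v, mulBy μ z) = (∏ j, (μ j : ℂ) ^ L.deg j) ^ K * s (v, z)) ∧
    ∀ g ∈ Γ, Permutes g 1 → ∀ p, s (act g p) = L.e g p.1 ^ K * s p}
  zero_mem' := ⟨differentiable_const 0, fun μ v z => by simp, fun g _ _ p => by simp⟩
  add_mem' := by
    rintro s t ⟨h1, h2, h3⟩ ⟨h1', h2', h3'⟩
    refine ⟨h1.add h1', fun μ v z => ?_, fun g hg hg' p => ?_⟩
    · rw [Pi.add_apply, Pi.add_apply, h2, h2']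
      ring
    · rw [Pi.add_apply, Pi.add_apply, h3 g hg hg', h3' g hg hg']
      ring
  smul_mem' := by
    rintro a s ⟨h1, h2, h3⟩
    refine ⟨h1.const_smul a, fun μ v z => ?_, fun g hg hg' p => ?_⟩
    · rw [Pi.smul_apply, Pi.smul_apply, h2, smul_eq_mul, smul_eq_mul]
      ring
    · rw [Pi.smul_apply, Pi.smul_apply, h3 g hg hg', smul_eq_mul, smul_eq_mul]
      ring

/-- the transform of a section -/
noncomputable def T (K : ℕ) (s : (Fin n → ℂ) × (Co r → ℂ) → ℂ) (g : Γ)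
    (p : (Fin n → ℂ) × (Co r → ℂ)) : ℂ :=
  L.e g (act (g : Trans n r)⁻¹ p).1 ^ K * s (act (g : Trans n r)⁻¹ p)

variable {L}

theorem e_mul (g h : Γ) (p : (Fin n → ℂ) × (Co r → ℂ)) :
    L.e (g * h : Γ) p.1 = L.e g (act (h : Trans n r) p).1 * L.e h p.1 :=
  L.mul g g.2 h h.2 p.1

theorem T_mul {K : ℕ} {s : (Fin n → ℂ) × (Co r → ℂ) → ℂ} (hs : s ∈ SecF L K) (g h : Γ)
    (hh : Permutes (h : Trans n r) 1) (p : (Fin n → ℂ) × (Co r → ℂ)) :
    T L K s (g * h) p = T L K s g p := by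
  unfold T
  obtain ⟨q, hq⟩ : ∃ q, q = act ((g * h : Γ) : Trans n r)⁻¹ p := ⟨_, rfl⟩
  have h1 : act (h : Trans n r) q = act (g : Trans n r)⁻¹ p := by
    rw [hq, ← act_mul, Subgroup.coe_mul, mul_inv_rev, mul_inv_cancel_left]
  rw [← hq, ← h1, hs.2.2 h h.2 hh q, e_mul, mul_pow, mul_assoc]

theorem T_left {K : ℕ} {s : (Fin n → ℂ) × (Co r → ℂ) → ℂ} (x g : Γ)
    (p : (Fin n → ℂ) × (Co r → ℂ)) :
    T L K s g (act (x : Trans n r) p) = L.e x p.1 ^ K * T L K s (x⁻¹ * g) p := by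
  unfold T
  obtain ⟨q, hq⟩ : ∃ q, q = act (g : Trans n r)⁻¹ (act (x : Trans n r) p) := ⟨_, rfl⟩
  have h1 : act ((x⁻¹ * g : Γ) : Trans n r)⁻¹ p = q := by
    rw [hq, ← act_mul, Subgroup.coe_mul, mul_inv_rev, Subgroup.coe_inv, inv_inv]
  have h3 : L.e g q.1 = L.e x p.1 * L.e (x⁻¹ * g : Γ) q.1 := by
    have h4 : g = x * (x⁻¹ * g) := by rw [mul_inv_cancel_left]
    have h5 : act ((x⁻¹ * g : Γ) : Trans n r) q = p := by
      rw [← h1, act_inv]
    calc L.e g q.1 = L.e (x * (x⁻¹ * g) : Γ) q.1 := by rw [← h4]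
      _ = L.e x p.1 * L.e (x⁻¹ * g : Γ) q.1 := by rw [e_mul, h5]
  rw [← hq, h1, h3]
  ring

theorem T_differentiable {K : ℕ} {s : (Fin n → ℂ) × (Co r → ℂ) → ℂ} (hs : s ∈ SecF L K) (g : Γ) :
    Differentiable ℂ (T L K s g) := by
  have h1 := act_differentiable (g : Trans n r)⁻¹
  have h2 : Differentiable ℂ fun p => (act (g : Trans n r)⁻¹ p).1 := differentiable_fst.comp h1
  have h3 : Differentiable ℂ fun p => L.e g (act (g : Trans n r)⁻¹ p).1 :=
    (L.holo g g.2).comp h2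
  exact (h3.pow K).mul (hs.1.comp h1)

theorem T_mulBy (hΓ : IsIsometryGroup Γ) {K : ℕ} {s : (Fin n → ℂ) × (Co r → ℂ) → ℂ}
    (hs : s ∈ SecF L K) (g : Γ) (μ : Fin c → ℂˣ) (v : Fin n → ℂ) (z : Co r → ℂ) :
    T L K s g (v, mulBy μ z) = (∏ j, (μ j : ℂ) ^ L.deg j) ^ K * T L K s g (v, z) := by
  unfold T
  obtain ⟨π, hπ⟩ := hΓ.isoF _ (Γ.inv_mem g.2)
  have h1 : act (g : Trans n r)⁻¹ (v, mulBy μ z) =
      ((act (g : Trans n r)⁻¹ (v, z)).1, mulBy (fun k => μ (π⁻¹ k))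
        (act (g : Trans n r)⁻¹ (v, z)).2) := Prod.ext rfl (hπ.mulBy μ z)
  rw [h1, hs.2.1, prod_perm L (Γ.inv_mem g.2) hπ]
  ring

/-- **Sections for the elements which preserve the factors give sections.** -/
theorem semiample_of_secF (hΓ : IsIsometryGroup Γ) {K : ℕ} (hK : 1 ≤ K)
    (h : ∀ p : (Fin n → ℂ) × (Co r → ℂ), IsPt p.2 → ∃ s ∈ SecF L K, s p ≠ 0) :
    L.IsSemiample := by
  classical
  have hfi : (DF Γ).FiniteIndex := ⟨DF_index hΓ⟩
  have : Finite (Γ ⧸ DF Γ) := Subgroup.finite_quotient_of_finiteIndex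
  have : Fintype (Γ ⧸ DF Γ) := Fintype.ofFinite _
  refine ⟨K * Fintype.card (Γ ⧸ DF Γ), Nat.mul_pos hK (Fintype.card_pos), fun v z hz => ?_⟩
  obtain ⟨s, hs, hs0⟩ := Module.Dual.exists_forall_mem_ne_zero_of_forall_exists (SecF L K)
    (fun q : Γ ⧸ DF Γ => (LinearMap.proj (act (q.out : Trans n r)⁻¹ (v, z)) :
      ((Fin n → ℂ) × (Co r → ℂ) → ℂ) →ₗ[ℂ] ℂ)) (fun q => by
        obtain ⟨π, hπ⟩ := hΓ.isoF _ (Γ.inv_mem q.out.2)
        obtain ⟨s, hs, hs0⟩ := h (act (q.out : Trans n r)⁻¹ (v, z)) (hπ.isPt hz)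
        exact ⟨s, hs, hs0⟩)
  refine ⟨fun v z => ∏ q : Γ ⧸ DF Γ, T L K s q.out (v, z), ⟨?_, ?_, ?_⟩, ?_⟩
  · exact FQ.differentiable_prod _ _ fun q => T_differentiable hs q.out
  · intro μ v z
    have h1 : ∏ j, (μ j : ℂ) ^ (((K * Fintype.card (Γ ⧸ DF Γ) : ℕ) : ℤ) * L.deg j) =
        (∏ j, (μ j : ℂ) ^ L.deg j) ^ (K * Fintype.card (Γ ⧸ DF Γ)) := by
      rw [← Finset.prod_pow]
      refine Finset.prod_congr rfl fun j _ => ?_
      rw [mul_comm, zpow_mul, zpow_natCast]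
    rw [h1, Finset.prod_congr rfl fun q _ => T_mulBy hΓ hs q.out μ v z, Finset.prod_mul_distrib,
      Finset.prod_const, Finset.card_univ, pow_mul]
  · intro x hx v z
    have h1 : ∀ q : Γ ⧸ DF Γ, T L K s q.out (act x (v, z)) =
        L.e x v ^ K * T L K s ((⟨x, hx⟩ : Γ)⁻¹ • q).out (v, z) := by
      intro q
      have h0 := T_left (L := L) (K := K) (s := s) ⟨x, hx⟩ q.out (v, z)
      change T L K s q.out (act x (v, z)) = _ at h0
      rw [h0]
      congr 1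
      have h2 : (QuotientGroup.mk (((⟨x, hx⟩ : Γ)⁻¹ • q).out) : Γ ⧸ DF Γ) =
          QuotientGroup.mk ((⟨x, hx⟩ : Γ)⁻¹ * q.out) := by
        rw [QuotientGroup.out_eq', ← smul_eq_mul, MulAction.Quotient.coe_smul_out]
      have h3 := QuotientGroup.eq.1 h2
      have h4 : (⟨x, hx⟩ : Γ)⁻¹ * q.out = ((⟨x, hx⟩ : Γ)⁻¹ • q).out *
          (((⟨x, hx⟩ : Γ)⁻¹ • q).out⁻¹ * ((⟨x, hx⟩ : Γ)⁻¹ * q.out)) := by
        rw [mul_inv_cancel_left]
      rw [h4, T_mul hs _ _ h3]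
    change ∏ q : Γ ⧸ DF Γ, T L K s q.out (act x (v, z)) =
      L.e x v ^ (K * Fintype.card (Γ ⧸ DF Γ)) * ∏ q : Γ ⧸ DF Γ, T L K s q.out (v, z)
    rw [Finset.prod_congr rfl fun q _ => h1 q, Finset.prod_mul_distrib, Finset.prod_const,
      Finset.card_univ, pow_mul]
    congr 1
    exact Fintype.prod_equiv (MulAction.toPerm (⟨x, hx⟩ : Γ)⁻¹) _ _ fun q => rfl
  · refine Finset.prod_ne_zero_iff.2 fun q _ => ?_
    exact mul_ne_zero (pow_ne_zero K (L.ne_zero _ q.out.2 _)) (hs0 q)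

/-- **Base point freeness.** -/
theorem semiample_of_nef (hΓ : IsIsometryGroup Γ)
    {ρ : (Fin n → ℂ) → ℂ} {σ : MvPolynomial (Co r) ℂ} {l : Fin c → ℕ}
    (hρ : IsRamification Γ ρ σ l) {m : ℕ} (hm : 1 ≤ m)
    {β : (Fin n → ℂ) → MvPolynomial (Co r) ℂ} {k : Fin c → ℕ} (hβ : IsEffective β k)
    (hL : IsLogPluricanonical L m ρ σ l β k) (hklt : IsKlt m ρ σ β)
    {H : (Fin n → ℂ) → (Fin n → ℂ) → ℂ} (hc : L.IsChernForm H) (hn : L.IsNef H) :
    L.IsSemiample := by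
  classical
  have h1 : FQ.IsEffective β k := ⟨hβ.holo, fun v => homog_conv (hβ.homog v), hβ.ne_zero⟩
  have h2 : FQ.IsLogPluricanonical (lbf L) m ρ σ l β k := by
    refine ⟨hL.deg, fun g v z => ?_⟩
    have h3 := hL.eq g.1 g.2.1 1 g.2.2 v z
    rw [Equiv.Perm.sign_one, Units.val_one, Int.cast_one, one_mul] at h3
    exact h3
  have h3 : (lbf L).IsChernForm H := by
    obtain ⟨hH, f, hf, h⟩ := hc
    exact ⟨hH, f, hf, fun g v => h g.1 g.2.1 v⟩
  have h4 : FQ.IsRamification (fac Γ) ρ σ l := by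
    refine ⟨hρ.holo, hρ.rho_ne_zero, fun v => ?_, hρ.ne_zero, homog_conv hρ.homog,
      fun g hg => hρ.inv g hg.1⟩
    rw [hρ.rho_zero]
    constructor
    · rintro ⟨g, hg, ⟨μ, hμ⟩, ⟨w, hw⟩, a, ha, hfix⟩
      have hμ1 : g.2 = FQ.scal μ := LinearEquiv.ext fun z => hμ z
      have hμ2 : Permutes g 1 := by
        obtain ⟨π, hπ⟩ := hΓ.isoF g hg
        have h5 := norm_one_of_scal hπ hμ
        intro z j
        rw [hμ]
        change ∑ i, ‖(μ j : ℂ) * z ⟨j, i⟩‖ ^ 2 = _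
        refine Finset.sum_congr rfl fun i _ => ?_
        rw [norm_mul, h5, one_mul]
      refine ⟨g.1, FQ.mem_GV.2 ⟨μ, ?_⟩, ?_, ∑ i, a i • (LinearMap.proj i :
        (Fin n → ℂ) →ₗ[ℂ] ℂ), ?_, ?_⟩
      · have h5 : ((g.1, FQ.scal μ) : FQ.Grp n r) = g := Prod.ext rfl hμ1.symm
        rw [h5]
        exact ⟨hg, hμ2⟩
      · intro h2
        apply hw
        change g.1 w = w
        rw [h2]
        rfl
      · intro h2
        apply ha
        funext i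
        have h3 := lin_eq a (Pi.single i 1)
        rw [h2] at h3
        unfold lin at h3
        rw [Finset.sum_eq_single i] at h3
        · rw [Pi.single_eq_same, mul_one] at h3
          exact h3
        · intro j _ hj
          rw [Pi.single_eq_of_ne hj, mul_zero]
        · intro h
          exact absurd (Finset.mem_univ _) h
      · intro u hu
        rw [← lin_eq, ← lin_eq] at hu
        exact hfix u hu
    · rintro ⟨γ, hγ, hne, ℓ, hℓ, hfix⟩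
      obtain ⟨μ, hμ⟩ := FQ.mem_GV.1 hγ
      have h1 : ∀ u, lin (fun i => ℓ (Pi.single i 1)) u = ℓ u := by
        intro u
        unfold lin
        have h3 : u = ∑ s, u s • (Pi.single s 1 : Fin n → ℂ) := by
          rw [← pi_eq_sum_univ' u]
        conv_rhs => rw [h3, map_sum]
        refine Finset.sum_congr rfl fun i _ => ?_
        rw [map_smul, smul_eq_mul, mul_comm]
      refine ⟨((γ, FQ.scal μ) : FQ.Grp n r), hμ.1, ⟨μ, fun z => rfl⟩, ?_,
        fun i => ℓ (Pi.single i 1), ?_, ?_⟩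
      · by_contra hcon
        push Not at hcon
        exact hne (AffineEquiv.ext fun w => hcon w)
      · intro h2
        apply hℓ
        refine LinearMap.ext fun u => ?_
        rw [← h1 u, h2]
        unfold lin
        simp
      · intro u hu
        rw [h1, h1] at hu
        exact hfix u hu
  obtain ⟨M, hM, h5⟩ := semiample_uq (isUQ hΓ) h4 hm h1 h2 hklt h3 hn
  refine semiample_of_secF hΓ hM fun p hp => ?_
  obtain ⟨s, hs, hs0⟩ := h5 p.1 p.2 hp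
  refine ⟨s, ⟨hs.holo, fun μ v z => ?_, fun g hg hg' p => hs.eq ⟨g, hg, hg'⟩ p.1 p.2⟩, hs0⟩
  have h6 := hs.homog μ v z
  change s (v, FQ.scal μ z) = _
  rw [h6]
  congr 1
  rw [← Finset.prod_pow]
  refine Finset.prod_congr rfl fun j _ => ?_
  change (μ j : ℂ) ^ ((M : ℤ) * L.deg j) = _
  rw [mul_comm, zpow_mul, zpow_natCast]

end Pool.Agent.H896.IG
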