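import Pool.Graph.R_pool_sql_team_seeded_707910d6.T2H08.FQ.Stmt
import Mathlib.GroupTheory.Perm.Sign

/-!
# Pairs on compact quotients of `ℂ^n × P^{r_1} × ... × P^{r_c}` by groups of holomorphic isometries

`Co`, `IsPt`, `mulBy`, `Trans`, `onV`, `onZ`, `jac`, `lin`, `IsHomog`, `IsEffective` and `IsKlt` are
defined in `Pool.Agent.T2H08.FQ.Stmt` of the library: `Co r` is the set of the indices of the
homogeneous coordinates of `F = P^{r 0} × ... × P^{r (c - 1)}`, `z : Co r → ℂ` gives a point of `F` if
`IsPt z`, and `mulBy μ z` gives the same point; an element `g` of the group `Trans n r` is a pair of an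
affine transformation `onV g` of `V = ℂ^n` and a linear transformation `onZ g` of the coordinates of `F`.
-/

set_option autoImplicit false

namespace Pool.Agent.H896.IG

open MvPolynomial Pool.Agent.T2H08.FB

variable {n c : ℕ} {r : Fin c → ℕ}

/-- `g` maps the coordinates of the `j`-th factor of `F` to those of the `π j`-th factor, and preserves
their hermitian norms. So `g` gives a holomorphic isometry of `F` for the Fubini-Study metrics, which
permutes the factors according to `π`. -/
def Permutes (g : Trans n r) (π : Equiv.Perm (Fin c)) : Prop :=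
  ∀ z j, ∑ i, ‖onZ g z ⟨π j, i⟩‖ ^ 2 = ∑ i, ‖z ⟨j, i⟩‖ ^ 2

/-- `Γ` gives a group of holomorphic isometries of `V × F`, `V = ℂ^n`, `F = P^{r 0} × ... × P^{r (c - 1)}`,
with its product metric, which acts properly discontinuously with a compact quotient. (Holomorphic
isometries are products of isometries of `V` and of `F`, and those of `F` are given by unitary
transformations of the coordinates of the factors and permutations of the factors.)

* All `r j` are positive (there may be no factors, `c = 0`).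
* The elements of `Γ` act on `V` by isometries of the standard hermitian metric, and on `F` by
  isometries.
* `Γ` contains the multiplications of the coordinates of the factors of `F` with numbers of absolute
  value `1`, which act trivially on `V × F`.
* Only finitely many of the transformations of `V × F` given by `Γ` move `0 ∈ V` by at most `R`.
* Every point of `V` has a bounded distance to the orbit of `0`. -/
structure IsIsometryGroup (Γ : Subgroup (Trans n r)) : Prop where
  pos : ∀ j, 1 ≤ r j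
  isoV : ∀ g ∈ Γ, ∀ v w, ∑ i, ‖onV g v i - onV g w i‖ ^ 2 = ∑ i, ‖v i - w i‖ ^ 2
  isoF : ∀ g ∈ Γ, ∃ π, Permutes g π
  scalar : ∀ μ : Fin c → ℂˣ, (∀ j, ‖(μ j : ℂ)‖ = 1) →
    ∃ g ∈ Γ, (∀ v, onV g v = v) ∧ ∀ z, onZ g z = mulBy μ z
  discrete : ∀ R : ℝ, ∃ S : Set (Trans n r), S.Finite ∧ ∀ g ∈ Γ, ∑ i, ‖onV g 0 i‖ ^ 2 ≤ R →
    ∃ h ∈ S, (∀ v, onV g v = onV h v) ∧ ∃ μ : Fin c → ℂˣ, ∀ z, onZ g z = mulBy μ (onZ h z)
  cocompact : ∃ R : ℝ, ∀ v : Fin n → ℂ, ∃ g ∈ Γ, ∑ i, ‖onV g 0 i - v i‖ ^ 2 ≤ R

/-- A holomorphic line bundle on `X = (V × F) / Γ`: its pullback to `V × F` is the line bundle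
`O (deg 0, ..., deg (c - 1))`, so that its sections are functions `s (v, z)` which are homogeneous of
degree `deg j` in the coordinates of the `j`-th factor, and `e` is a factor of automorphy for `Γ`, such
that the stabiliser of every point of `V × F` acts trivially on the fibre: if `g` fixes the point
`(v, z)`, that is, `g v = v` and `g z = μ z`, then `e_g (v) = ∏ μ j ^ deg j`. The degrees of factors which
are permuted by `Γ` are equal. (The values `e g` for `g` not in `Γ` are of no importance.) -/
structure LineBundle (Γ : Subgroup (Trans n r)) where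
  deg : Fin c → ℤ
  e : Trans n r → (Fin n → ℂ) → ℂ
  holo : ∀ g ∈ Γ, Differentiable ℂ (e g)
  ne_zero : ∀ g ∈ Γ, ∀ v, e g v ≠ 0
  mul : ∀ g ∈ Γ, ∀ h ∈ Γ, ∀ v, e (g * h) v = e g (onV h v) * e h v
  stab : ∀ g ∈ Γ, ∀ v z (μ : Fin c → ℂˣ), IsPt z → onV g v = v → onZ g z = mulBy μ z →
    e g v = ∏ j, (μ j : ℂ) ^ deg j
  perm : ∀ g ∈ Γ, ∀ π, Permutes g π → ∀ j, deg (π j) = deg j

/-- A global section of `L ^ M`: a holomorphic function `s (v, z)`, homogeneous of degree `M * deg j` in
the coordinates of the `j`-th factor, with `s (g v, g z) = e_g (v) ^ M s (v, z)` for all `g` in `Γ`. -/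
structure LineBundle.IsSection {Γ : Subgroup (Trans n r)} (L : LineBundle Γ) (M : ℕ)
    (s : (Fin n → ℂ) → (Co r → ℂ) → ℂ) : Prop where
  holo : Differentiable ℂ fun p : (Fin n → ℂ) × (Co r → ℂ) => s p.1 p.2
  homog : ∀ (μ : Fin c → ℂˣ) v z, s v (mulBy μ z) = (∏ j, (μ j : ℂ) ^ (M * L.deg j)) * s v z
  eq : ∀ g ∈ Γ, ∀ v z, s (onV g v) (onZ g z) = L.e g v ^ M * s v z

/-- `L` is `ℚ`-effective: some power `L ^ M`, `M ≥ 1`, has a section which is not zero. -/
def LineBundle.IsQEffective {Γ : Subgroup (Trans n r)} (L : LineBundle Γ) : Prop :=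
  ∃ M : ℕ, 1 ≤ M ∧ ∃ s, L.IsSection M s ∧ ∃ v z, IsPt z ∧ s v z ≠ 0

/-- `L` is semiample: the sections of some power `L ^ M`, `M ≥ 1`, have no common zero. -/
def LineBundle.IsSemiample {Γ : Subgroup (Trans n r)} (L : LineBundle Γ) : Prop :=
  ∃ M : ℕ, 1 ≤ M ∧ ∀ v z, IsPt z → ∃ s, L.IsSection M s ∧ s v z ≠ 0

/-- The class `c_1 (L)` is `H + ∑ deg j ω_j`, `ω_j` the class of the Fubini-Study metric of the `j`-th
factor: for some holomorphic function `f` on `V` the formula
`‖s (v, z)‖² = |s (v, z)|² exp (- π H (v, v) - 2 Re f (v)) ∏ |z_j| ^ (- 2 deg j)` defines a hermitian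
metric on `L`, that is, this expression is invariant under `Γ` when `s` is a section of `L`. -/
def LineBundle.IsChernForm {Γ : Subgroup (Trans n r)} (L : LineBundle Γ)
    (H : (Fin n → ℂ) → (Fin n → ℂ) → ℂ) : Prop :=
  Pool.Agent.W594.SYZ2.IsHermitian H ∧ ∃ f : (Fin n → ℂ) → ℂ, Differentiable ℂ f ∧
    ∀ g ∈ Γ, ∀ v, ‖L.e g v‖ ^ 2 =
      Real.exp (Real.pi * (H (onV g v) (onV g v)).re + 2 * (f (onV g v)).re
        - (Real.pi * (H v v).re + 2 * (f v).re))

/-- The line bundle `L` with the class `H + ∑ deg j ω_j` is nef: `H` is positive semidefinite and the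
degrees are not negative. -/
def LineBundle.IsNef {Γ : Subgroup (Trans n r)} (L : LineBundle Γ)
    (H : (Fin n → ℂ) → (Fin n → ℂ) → ℂ) : Prop :=
  Pool.Agent.W594.SYZ2.IsNefForm H ∧ ∀ j, 0 ≤ L.deg j

/-- The transformation of `V × F` given by `g` fixes each point of the set `P`. -/
def Fixes (g : Trans n r) (P : (Fin n → ℂ) → (Co r → ℂ) → Prop) : Prop :=
  ∀ v z, IsPt z → P v z → onV g v = v ∧ ∃ μ : Fin c → ℂˣ, onZ g z = mulBy μ z

/-- `g` acts trivially on `F`. -/
def TrivialOnF (g : Trans n r) : Prop := ∃ μ : Fin c → ℂˣ, ∀ z, onZ g z = mulBy μ z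

/-- The number of the transformations of `V × F` (the identity included) which are given by the elements
of `Γ` and fix each point of the divisor `P` of `V × F`. -/
noncomputable def ramIndex (Γ : Subgroup (Trans n r)) (P : (Fin n → ℂ) → (Co r → ℂ) → Prop) : ℕ :=
  Nat.card {x : Set (Trans n r) // ∃ g ∈ Γ, Fixes g P ∧ x = same g}

/-- The ramification divisor of `V × F → X = (V × F) / Γ` is the sum of a divisor of `V`, defined by the
entire function `ρ`, and of a divisor of `F`, defined by the polynomial `σ`, which is homogeneous of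
degree `l j` in the coordinates of the `j`-th factor. (A transformation of `V × F` given by an element of
`Γ` which fixes the points of a divisor acts trivially on `F` and fixes the points of a hyperplane of `V`,
or it acts trivially on `V`, and fixes the points of a hyperplane of one of the factors of `F` or it
exchanges two factors `P^1` and fixes the points of the graph of an isomorphism of these factors.)

* The zeros of `ρ` are the points `v` for which some element of `Γ`, which acts trivially on `F` and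
  nontrivially on `V`, fixes each point of the hyperplane `a = a (v)`, for some linear form `a ≠ 0`.
* Along each hyperplane `a = t` it vanishes exactly to the order `ramIndex - 1`.
* The zeros of `σ` are the points `z` for which some element of `Γ`, which acts nontrivially on `F`, fixes
  each point of the divisor `V × {p = 0}`, for some irreducible polynomial `p` with `p (z) = 0`,
  homogeneous in the coordinates of each factor.
* Along each divisor `p = 0` of this kind it vanishes exactly to the order `ramIndex - 1`.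
* The divisor of `σ` is invariant under `Γ`. -/
structure IsRamification (Γ : Subgroup (Trans n r)) (ρ : (Fin n → ℂ) → ℂ)
    (σ : MvPolynomial (Co r) ℂ) (l : Fin c → ℕ) : Prop where
  holo : Differentiable ℂ ρ
  rho_ne_zero : ∃ v, ρ v ≠ 0
  rho_zero : ∀ v, ρ v = 0 ↔ ∃ g ∈ Γ, TrivialOnF g ∧ (∃ w, onV g w ≠ w) ∧
    ∃ a : Fin n → ℂ, a ≠ 0 ∧ ∀ w, lin a w = lin a v → onV g w = w
  rho_order : ∀ (a : Fin n → ℂ) (t : ℂ), a ≠ 0 → ∃ q : (Fin n → ℂ) → ℂ, Differentiable ℂ q ∧
    (∀ v, ρ v = (lin a v - t) ^ (ramIndex Γ (fun w _ => lin a w = t) - 1) * q v) ∧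
    ∃ v, lin a v = t ∧ q v ≠ 0
  ne_zero : σ ≠ 0
  homog : IsHomog l σ
  zero : ∀ z, IsPt z → (eval z σ = 0 ↔ ∃ g ∈ Γ, ¬ TrivialOnF g ∧
    ∃ p : MvPolynomial (Co r) ℂ, Irreducible p ∧ (∃ d, IsHomog d p) ∧ eval z p = 0 ∧
      Fixes g fun _ w => eval w p = 0)
  order : ∀ p : MvPolynomial (Co r) ℂ, Irreducible p → (∃ d, IsHomog d p) →
    ∃ q : MvPolynomial (Co r) ℂ,
      σ = p ^ (ramIndex Γ (fun _ w => eval w p = 0) - 1) * q ∧ ¬ p ∣ q
  inv : ∀ g ∈ Γ, ∃ t : ℂ, ∀ z, eval (onZ g z) σ = t * eval z σ

/-- `L` is the line bundle `O_X (m (K_X + B))`, where `ρ` and `σ` define the ramification divisor and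
`β` defines the pullback of the effective divisor `m B` to `V × F`. Here the local section `s` of `L` is
the `m`-canonical form `s ρ ^ m σ ^ m / β (dv Ω) ^ m`, which is invariant under `Γ`; `Ω = ∧ Ω_j`,
`Ω_j = ∑ i, (-1) ^ i z_i dz_0 ∧ ... dz_i omitted ... ∧ dz_{r j}`, is homogeneous of degree `r j + 1` in the
coordinates of the `j`-th factor, and `g^* (dv Ω) = sign (π) jac (g) dv Ω` if `g` permutes the factors
according to `π`. -/
structure IsLogPluricanonical {Γ : Subgroup (Trans n r)} (L : LineBundle Γ) (m : ℕ)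
    (ρ : (Fin n → ℂ) → ℂ) (σ : MvPolynomial (Co r) ℂ) (l : Fin c → ℕ)
    (β : (Fin n → ℂ) → MvPolynomial (Co r) ℂ) (k : Fin c → ℕ) : Prop where
  deg : ∀ j, L.deg j + m * (l j + (r j + 1)) = k j
  eq : ∀ g ∈ Γ, ∀ π, Permutes g π → ∀ v z,
    eval (onZ g z) (β (onV g v)) * (ρ v * eval z σ) ^ m =
      L.e g v * (((Equiv.Perm.sign π : ℤ) : ℂ) * jac g) ^ m * eval z (β v) *
        (ρ (onV g v) * eval (onZ g z) σ) ^ m

end Pool.Agent.H896.IG
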