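import Pool.Agent.H896.IQ.Blk

/-!
# A subgroup of finite index is diagonal in suitable unitary coordinates
-/

set_option autoImplicit false

namespace Pool.Agent.H896.IQ

open Pool.Agent.T2H08.FQ Pool.Agent.W594.SYZ2

variable {n c : ℕ} {r : Fin c → ℕ}

/-- the linear map of a transformation of the coordinates -/
abbrev lm (A : (Co r → ℂ) ≃ₗ[ℂ] (Co r → ℂ)) : (Co r → ℂ) →ₗ[ℂ] (Co r → ℂ) := A

/-- Quotients of `V × F` by groups of unitary transformations of the factors of `F`: no coordinates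
are distinguished. -/
structure IsUQ (Γ : Subgroup (Grp n r)) : Prop where
  unitary : ∀ g ∈ Γ, BU (lm g.2)
  scalar : ∀ μ : Fin c → ℂˣ, (∀ j, ‖(μ j : ℂ)‖ = 1) → ((1, scal μ) : Grp n r) ∈ Γ
  torus : IsTorusQuotient (GA Γ)
  kernel : ∃ S : Set (Grp n r), S.Finite ∧ ∀ g ∈ Γ, g.1 = 1 → ∃ h ∈ S, ∃ μ : Fin c → ℂˣ,
    g.2 = scal μ * h.2

theorem aff_apply (γ : (Fin n → ℂ) ≃ᵃ[ℂ] (Fin n → ℂ)) (v : Fin n → ℂ) :
    γ v = γ.linear v + γ 0 := by
  have h := γ.map_vadd 0 v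
  rwa [vadd_eq_add, vadd_eq_add, add_zero] at h

theorem lin_mul (γ δ : (Fin n → ℂ) ≃ᵃ[ℂ] (Fin n → ℂ)) :
    (γ * δ).linear = γ.linear * δ.linear := rfl

theorem bu_one : BU (lm (1 : (Co r → ℂ) ≃ₗ[ℂ] (Co r → ℂ))) := fun _ _ => rfl

theorem blk_one (j : Fin c) : blk j (lm (1 : (Co r → ℂ) ≃ₗ[ℂ] (Co r → ℂ))) = LinearMap.id := by
  refine LinearMap.ext fun x => funext fun i => ?_
  change inc j x ⟨j, i⟩ = x i
  rw [inc_same]

theorem det_blk_mul {A B : (Co r → ℂ) ≃ₗ[ℂ] (Co r → ℂ)} (hA : BU (lm A)) (j : Fin c) :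
    LinearMap.det (blk j (lm (A * B))) = LinearMap.det (blk j (lm A)) *
      LinearMap.det (blk j (lm B)) := by
  have h1 : blk j (lm (A * B)) = blk j (lm A) ∘ₗ blk j (lm B) := blk_comp' hA j
  rw [h1, LinearMap.det_comp]

theorem det_blk_scal_mul (μ : Fin c → ℂˣ) (B : (Co r → ℂ) ≃ₗ[ℂ] (Co r → ℂ)) (j : Fin c) :
    LinearMap.det (blk j (lm (scal μ * B))) = (μ j : ℂ) ^ (r j + 1) *
      LinearMap.det (blk j (lm B)) := by
  have h1 : blk j (lm (scal μ * B)) = (μ j : ℂ) • blk j (lm B) := by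
    refine LinearMap.ext fun x => funext fun i => ?_
    change scal μ (B (inc j x)) ⟨j, i⟩ = (μ j : ℂ) * B (inc j x) ⟨j, i⟩
    rw [scal_apply]
  rw [h1, LinearMap.det_smul]
  simp

theorem norm_det_unitary {k : ℕ} {A : (Fin k → ℂ) →ₗ[ℂ] (Fin k → ℂ)}
    (h : ∀ x, ∑ i, ‖A x i‖ ^ 2 = ∑ i, ‖x i‖ ^ 2) : ‖LinearMap.det A‖ = 1 := by
  classical
  obtain ⟨P, hP, hd⟩ := exists_unitary_diag (fun _ : Unit => A) (fun _ => h) (fun _ _ _ => rfl)
  obtain ⟨χ, hχ⟩ := hd ()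
  have h1 : A = (P : (Fin k → ℂ) →ₗ[ℂ] (Fin k → ℂ)) ∘ₗ
      (Matrix.toLin' (Matrix.diagonal χ)) ∘ₗ (P.symm : (Fin k → ℂ) →ₗ[ℂ] (Fin k → ℂ)) := by
    refine LinearMap.ext fun x => ?_
    have h2 := hχ (P.symm x)
    rw [LinearEquiv.apply_symm_apply] at h2
    rw [h2]
    change _ = P (Matrix.toLin' (Matrix.diagonal χ) (P.symm x))
    congr 1
    funext i
    rw [Matrix.toLin'_apply, Matrix.mulVec_diagonal]
  have h2 : LinearMap.det A = ∏ i, χ i := by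
    rw [h1, LinearMap.det_conj, LinearMap.det_toLin', Matrix.det_diagonal]
  rw [h2, norm_prod]
  refine Finset.prod_eq_one fun i _ => ?_
  have h3 := h (P (Pi.single i 1))
  have h4 : A (P (Pi.single i 1)) = χ i • P (Pi.single i 1) := by
    rw [hχ, ← map_smul]
    congr 1
    funext l
    by_cases hl : l = i
    · subst hl
      rw [Pi.smul_apply, smul_eq_mul]
    · rw [Pi.smul_apply, smul_eq_mul, Pi.single_eq_of_ne hl, mul_zero, mul_zero]
  rw [h4] at h3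
  have h5 : ∑ l, ‖(χ i • P (Pi.single i 1) : Fin k → ℂ) l‖ ^ 2 =
      ‖χ i‖ ^ 2 * ∑ l, ‖P (Pi.single i 1) l‖ ^ 2 := by
    rw [Finset.mul_sum]
    refine Finset.sum_congr rfl fun l _ => ?_
    rw [Pi.smul_apply, smul_eq_mul, norm_mul, mul_pow]
  rw [h5, hP] at h3
  have h6 : ∑ l, ‖(Pi.single i 1 : Fin k → ℂ) l‖ ^ 2 = 1 := by
    rw [Finset.sum_eq_single i]
    · simp
    · intro l _ hl
      rw [Pi.single_eq_of_ne hl]
      simp
    · intro h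
      exact absurd (Finset.mem_univ _) h
  rw [h6, mul_one] at h3
  exact (pow_eq_one_iff_of_nonneg (norm_nonneg _) two_ne_zero).1 h3

/-- the normalised translations -/
def G0 {Γ : Subgroup (Grp n r)} (hΓ : IsUQ Γ) : Subgroup (Grp n r) where
  carrier := {g | g ∈ Γ ∧ g.1.linear = 1 ∧ ∀ j, LinearMap.det (blk j (lm g.2)) = 1}
  one_mem' := ⟨Γ.one_mem, rfl, fun j => by
    change LinearMap.det (blk j (lm (1 : (Co r → ℂ) ≃ₗ[ℂ] (Co r → ℂ)))) = 1
    rw [blk_one, LinearMap.det_id]⟩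
  mul_mem' := by
    rintro g h ⟨h1, h2, h3⟩ ⟨h1', h2', h3'⟩
    refine ⟨Γ.mul_mem h1 h1', ?_, fun j => ?_⟩
    · change (g.1 * h.1).linear = 1
      rw [lin_mul, h2, h2', mul_one]
    · change LinearMap.det (blk j (lm (g.2 * h.2))) = 1
      rw [det_blk_mul (hΓ.unitary g h1), h3, h3', mul_one]
  inv_mem' := by
    rintro g ⟨h1, h2, h3⟩
    refine ⟨Γ.inv_mem h1, ?_, fun j => ?_⟩
    · have h4 : (g.1⁻¹ * g.1).linear = 1 := by
        rw [inv_mul_cancel]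
        rfl
      rw [lin_mul, h2, mul_one] at h4
      exact h4
    · have h4 : LinearMap.det (blk j (lm (g.2 * g.2⁻¹))) = 1 := by
        rw [mul_inv_cancel, blk_one, LinearMap.det_id]
      rw [det_blk_mul (hΓ.unitary g h1), h3, one_mul] at h4
      exact h4

theorem mem_G0 {Γ : Subgroup (Grp n r)} {hΓ : IsUQ Γ} {g : Grp n r} :
    g ∈ G0 hΓ ↔ g ∈ Γ ∧ g.1.linear = 1 ∧ ∀ j, LinearMap.det (blk j (lm g.2)) = 1 := Iff.rfl

/-- normalisation -/
theorem exists_normal {Γ : Subgroup (Grp n r)} (hΓ : IsUQ Γ) {g : Grp n r} (hg : g ∈ Γ)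
    (hl : g.1.linear = 1) : ∃ ν : Fin c → ℂˣ, (1, scal ν) * g ∈ G0 hΓ := by
  have h1 : ∀ j : Fin c, ∃ ν : ℂˣ, ‖(ν : ℂ)‖ = 1 ∧
      (ν : ℂ) ^ (r j + 1) * LinearMap.det (blk j (lm g.2)) = 1 := by
    intro j
    have h2 := norm_det_unitary (blk_unitary (hΓ.unitary g hg) j)
    have h3 : LinearMap.det (blk j (lm g.2)) ≠ 0 := by
      intro h
      rw [h, norm_zero] at h2
      exact zero_ne_one h2
    obtain ⟨ν, hν⟩ := IsAlgClosed.exists_pow_nat_eq (LinearMap.det (blk j (lm g.2)))⁻¹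
      (Nat.succ_pos (r j))
    have h4 : ν ≠ 0 := by
      rintro rfl
      rw [zero_pow (Nat.succ_ne_zero _)] at hν
      exact inv_ne_zero h3 hν.symm
    refine ⟨Units.mk0 ν h4, ?_, ?_⟩
    · have h5 : ‖ν‖ ^ (r j + 1) = 1 := by
        rw [← norm_pow, hν, norm_inv, h2, inv_one]
      exact (pow_eq_one_iff_of_nonneg (norm_nonneg _) (Nat.succ_ne_zero _)).1 h5
    · rw [Units.val_mk0, hν, inv_mul_cancel₀ h3]
  choose ν hν1 hν2 using h1
  refine ⟨ν, Γ.mul_mem (hΓ.scalar ν hν1) hg, hl, fun j => ?_⟩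
  change LinearMap.det (blk j (lm (scal ν * g.2))) = 1
  rw [det_blk_scal_mul]
  exact hν2 j

/-- the translation vector -/
def trv {Γ : Subgroup (Grp n r)} (hΓ : IsUQ Γ) : G0 hΓ →* Multiplicative (Fin n → ℂ) where
  toFun g := Multiplicative.ofAdd ((g : Grp n r).1 0)
  map_one' := rfl
  map_mul' g h := by
    change Multiplicative.ofAdd ((g : Grp n r).1 ((h : Grp n r).1 0)) = _
    rw [aff_apply, g.2.2.1, ← ofAdd_add, add_comm]
    rfl

theorem finite_ker {Γ : Subgroup (Grp n r)} (hΓ : IsUQ Γ) : Finite (trv hΓ).ker := by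
  classical
  obtain ⟨S, hS, hS'⟩ := hΓ.kernel
  have hF : ∀ h : Grp n r, {μ : Fin c → ℂˣ | ∀ j, (μ j : ℂ) ^ (r j + 1) *
      LinearMap.det (blk j (lm h.2)) = 1}.Finite := by
    intro h
    have h1 : ∀ j : Fin c, {x : ℂˣ | (x : ℂ) ^ (r j + 1) *
        LinearMap.det (blk j (lm h.2)) = 1}.Finite := by
      intro j
      have h2 : {x : ℂ | x ∈ (Polynomial.nthRoots (r j + 1)
          (LinearMap.det (blk j (lm h.2)))⁻¹).toFinset}.Finite := Finset.finite_toSet _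
      refine (h2.preimage (Units.val_injective.injOn)).subset ?_
      intro x hx
      have hx' : (x : ℂ) ^ (r j + 1) * LinearMap.det (blk j (lm h.2)) = 1 := hx
      change (x : ℂ) ∈ (Polynomial.nthRoots (r j + 1) _).toFinset
      rw [Multiset.mem_toFinset, Polynomial.mem_nthRoots (Nat.succ_pos _)]
      exact eq_inv_of_mul_eq_one_left hx'
    have h2 := Set.Finite.pi' h1
    exact h2
  have h1 : (⋃ h ∈ S, (fun μ : Fin c → ℂˣ => ((1, scal μ * h.2) : Grp n r)) ''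
      {μ : Fin c → ℂˣ | ∀ j, (μ j : ℂ) ^ (r j + 1) *
        LinearMap.det (blk j (lm h.2)) = 1}).Finite :=
    hS.biUnion fun h _ => (hF h).image _
  have h2 : ((fun x : G0 hΓ => (x : Grp n r)) '' ((trv hΓ).ker : Set (G0 hΓ))).Finite := by
    refine h1.subset ?_
    rintro _ ⟨x, hx, rfl⟩
    have hx0 : (x : Grp n r).1 0 = 0 := by
      have h3 : trv hΓ x = 1 := hx
      exact Multiplicative.ofAdd.injective h3
    have hx1 : (x : Grp n r).1 = 1 := by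
      refine AffineEquiv.ext fun v => ?_
      rw [aff_apply, hx0, x.2.2.1, add_zero]
      rfl
    obtain ⟨h, hh, μ, hμ⟩ := hS' x x.2.1 hx1
    refine Set.mem_biUnion hh ⟨μ, fun j => ?_, ?_⟩
    · rw [← det_blk_scal_mul, ← hμ]
      exact x.2.2.2 j
    · exact Prod.ext hx1.symm hμ.symm
  have h3 : ((trv hΓ).ker : Set (G0 hΓ)).Finite :=
    Set.Finite.of_finite_image h2 Subtype.val_injective.injOn
  exact h3

theorem fg_lattice {G : Subgroup ((Fin n → ℂ) ≃ᵃ[ℂ] (Fin n → ℂ))} (hG : IsTorusQuotient G) :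
    ∃ t : Set (Fin n → ℂ), t.Finite ∧ t ⊆ latt G ∧
      ∀ b ∈ latt G, b ∈ AddSubgroup.closure t := by
  have hd : DiscreteTopology (AddSubgroup.toIntSubmodule (latt G)) := hG.discrete
  have hz : IsZLattice ℝ (AddSubgroup.toIntSubmodule (latt G)) := ⟨hG.span_top⟩
  obtain ⟨t, ht⟩ := ZLattice.FG ℝ (AddSubgroup.toIntSubmodule (latt G))
  refine ⟨t, t.finite_toSet, fun x hx => ?_, fun b hb => ?_⟩
  · have h1 : x ∈ Submodule.span ℤ (t : Set (Fin n → ℂ)) := Submodule.subset_span hx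
    rw [ht] at h1
    exact h1
  · have h1 : b ∈ AddSubgroup.toIntSubmodule (latt G) := hb
    rw [← ht] at h1
    have h2 : Submodule.span ℤ (t : Set (Fin n → ℂ)) ≤
        AddSubgroup.toIntSubmodule (AddSubgroup.closure (t : Set (Fin n → ℂ))) :=
      Submodule.span_le.2 AddSubgroup.subset_closure
    exact h2 h1

/-- **Unitary coordinates in which a subgroup of finite index is diagonal.** -/
theorem exists_diagonal {Γ : Subgroup (Grp n r)} (hΓ : IsUQ Γ) :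
    ∃ P : (Co r → ℂ) ≃ₗ[ℂ] (Co r → ℂ), BU (lm P) ∧ ∃ R : Set (Grp n r), R.Finite ∧
      ∀ x ∈ Γ, ∃ y ∈ R, ∃ χ : Co r → ℂ, ∀ z, (y⁻¹ * x).2 (P z) = P fun s => χ s * z s := by
  classical
  obtain ⟨t, ht, htL, hgen⟩ := fg_lattice hΓ.torus
  -- lifts of the generators
  have h1 : ∀ b ∈ t, ∃ g : G0 hΓ, (g : Grp n r).1 0 = b := by
    intro b hb
    obtain ⟨A, hA⟩ := mem_GA.1 (mem_latt.1 (htL hb))
    obtain ⟨ν, hν⟩ := exists_normal hΓ hA rfl
    refine ⟨⟨_, hν⟩, ?_⟩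
    change AffineEquiv.constVAdd ℂ (Fin n → ℂ) b 0 = b
    rw [AffineEquiv.constVAdd_apply, vadd_eq_add, add_zero]
  choose! lift hlift using h1
  obtain ⟨D, hD, hcomm⟩ := virt_comm (trv hΓ) (finite_ker hΓ) (s := lift '' t) (ht.image _) (by
    intro g
    have hb : (g : Grp n r).1 0 ∈ latt (GA Γ) := by
      refine mem_latt.2 (mem_GA.2 ⟨(g : Grp n r).2, ?_⟩)
      have h2 : ((AffineEquiv.constVAdd ℂ (Fin n → ℂ) ((g : Grp n r).1 0), (g : Grp n r).2) :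
          Grp n r) = (g : Grp n r) := by
        refine Prod.ext (AffineEquiv.ext fun v => ?_) rfl
        change (g : Grp n r).1 0 + v = (g : Grp n r).1 v
        rw [aff_apply _ v, g.2.2.1, add_comm]
        rfl
      rw [h2]
      exact g.2.1
    have h3 : ∀ b ∈ AddSubgroup.closure t, Multiplicative.ofAdd b ∈
        Subgroup.closure (trv hΓ '' (lift '' t)) := by
      intro b hb
      induction hb using AddSubgroup.closure_induction with
      | mem b hb =>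
        refine Subgroup.subset_closure ⟨lift b, ⟨b, hb, rfl⟩, ?_⟩
        change Multiplicative.ofAdd ((lift b : Grp n r).1 0) = _
        rw [hlift b hb]
      | zero => exact Subgroup.one_mem _
      | add a b _ _ h1 h2 =>
        rw [ofAdd_add]
        exact Subgroup.mul_mem _ h1 h2
      | neg a _ h1 =>
        rw [ofAdd_neg]
        exact Subgroup.inv_mem _ h1
    exact h3 _ (hgen _ hb))
  obtain ⟨P, hP, hdiag⟩ := exists_coordinates (fun y : D => lm ((y : G0 hΓ) : Grp n r).2)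
    (fun y => hΓ.unitary _ (y : G0 hΓ).2.1) (fun y y' x => by
      have h2 := hcomm y.1 y.2 y'.1 y'.2
      have h3 : ((y.1 : Grp n r) * (y'.1 : Grp n r)).2 x = ((y'.1 : Grp n r) * (y.1 : Grp n r)).2 x :=
        congrArg (fun g : G0 hΓ => (g : Grp n r).2 x) h2
      exact h3)
  -- representatives
  have hfi : Finite (G0 hΓ ⧸ D) := Subgroup.finite_quotient_of_finiteIndex
  have hlin : ∀ A ∈ {A : (Fin n → ℂ) ≃ₗ[ℂ] (Fin n → ℂ) | ∃ γ ∈ GA Γ, γ.linear = A},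
      ∃ g ∈ Γ, g.1.linear = A := by
    rintro A ⟨γ, hγ, rfl⟩
    obtain ⟨B, hB⟩ := mem_GA.1 hγ
    exact ⟨_, hB, rfl⟩
  choose! rep hrep1 hrep2 using hlin
  refine ⟨P, hP, (fun p : ((Fin n → ℂ) ≃ₗ[ℂ] (Fin n → ℂ)) × (G0 hΓ ⧸ D) =>
    rep p.1 * (p.2.out : Grp n r)) '' ({A | ∃ γ ∈ GA Γ, γ.linear = A} ×ˢ Set.univ),
    (hΓ.torus.finite_linear.prod Set.finite_univ).image _, fun x hx => ?_⟩
  have hx1 : x.1.linear ∈ {A : (Fin n → ℂ) ≃ₗ[ℂ] (Fin n → ℂ) | ∃ γ ∈ GA Γ, γ.linear = A} :=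
    ⟨x.1, mem_GA.2 ⟨x.2, hx⟩, rfl⟩
  have hy1 := hrep1 _ hx1
  have hy2 := hrep2 _ hx1
  obtain ⟨ν, hν⟩ := exists_normal hΓ (Γ.mul_mem (Γ.inv_mem hy1) hx) (by
    change ((rep x.1.linear).1⁻¹ * x.1).linear = 1
    rw [lin_mul]
    have h4 : ((rep x.1.linear).1⁻¹ * (rep x.1.linear).1).linear = 1 := by
      rw [inv_mul_cancel]
      rfl
    rw [lin_mul, hy2] at h4
    exact h4)
  obtain ⟨q, hq⟩ : ∃ q : G0 hΓ ⧸ D, q = QuotientGroup.mk ⟨_, hν⟩ := ⟨_, rfl⟩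
  have hd : q.out⁻¹ * ⟨_, hν⟩ ∈ D := by
    refine QuotientGroup.eq.1 ?_
    rw [QuotientGroup.out_eq', hq]
  obtain ⟨χ, hχ⟩ := hdiag ⟨_, hd⟩
  refine ⟨_, ⟨(x.1.linear, q), ⟨hx1, trivial⟩, rfl⟩, fun s => (ν s.1 : ℂ)⁻¹ * χ s, fun z => ?_⟩
  obtain ⟨y, hy⟩ : ∃ y : Grp n r, y = (rep x.1.linear * (q.out : Grp n r))⁻¹ * x := ⟨_, rfl⟩
  have h5 : ∀ w : Co r → ℂ, ((q.out⁻¹ * ⟨_, hν⟩ : G0 hΓ) : Grp n r).2 w = scal ν (y.2 w) := by
    intro w
    have h6 : BU (lm ((q.out : Grp n r)⁻¹).2) :=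
      hΓ.unitary _ (Γ.inv_mem (q.out : G0 hΓ).2.1)
    have h7 : y.2 w = ((q.out : Grp n r)⁻¹).2 (((rep x.1.linear)⁻¹ * x).2 w) := by
      rw [hy, mul_inv_rev, mul_assoc]
      rfl
    rw [h7]
    change ((q.out : Grp n r)⁻¹).2 (scal ν (((rep x.1.linear)⁻¹ * x).2 w)) = _
    exact h6.scal ν _
  have h6 := hχ z
  change ((q.out⁻¹ * ⟨_, hν⟩ : G0 hΓ) : Grp n r).2 (P z) = _ at h6
  rw [h5] at h6
  change ((rep x.1.linear * (q.out : Grp n r))⁻¹ * x).2 (P z) = _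
  rw [← hy]
  have h7 : y.2 (P z) = scal ν⁻¹ (scal ν (y.2 (P z))) := by
    have h8 : scal ν⁻¹ * scal ν = (1 : (Co r → ℂ) ≃ₗ[ℂ] (Co r → ℂ)) := by
      rw [← map_mul, inv_mul_cancel, map_one]
    have h9 : (scal ν⁻¹ * scal ν : (Co r → ℂ) ≃ₗ[ℂ] (Co r → ℂ)) (y.2 (P z)) = y.2 (P z) := by
      rw [h8]
      rfl
    exact h9.symm
  rw [h7, h6]
  have h8 := hP.scal ν⁻¹ (fun s => χ s * z s)
  change P (scal ν⁻¹ fun s => χ s * z s) = scal ν⁻¹ (P fun s => χ s * z s) at h8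
  rw [← h8]
  congr 1
  funext s
  rw [scal_apply]
  change ((ν s.1)⁻¹ : ℂˣ) * (χ s * z s) = _
  rw [Units.val_inv_eq_inv_val, mul_assoc]

end Pool.Agent.H896.IQ
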